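import Pool.Agent.N649.KA.Rel

set_option autoImplicit false
set_option linter.unusedSectionVars false

/-!
# First-order theories in arbitrary countable languages

Coding of structures with relations and functions by relational structures, and first-order
theories of structures in which everything is reachable by named steps along chains.
-/

namespace Pool.Agent.N649.KA.FO

open Set MeasureTheory FirstOrder FirstOrder.Language
open Pool.Agent.H533R2.VO (RS RIso VC Dich)
open Pool.Agent.H533R2.VS (act)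
open Pool.Agent.N649.KA

variable {L : FirstOrder.Language.{0, 0}}

/-- arities -/
def ar : Option L.Symbols → ℕ
  | none => 0
  | some (Sum.inl f) => f.1 + 1
  | some (Sum.inr r) => r.1

open Classical in
/-- values -/
noncomputable def evr (S : L.Structure ℕ) : (o : Option L.Symbols) → (Fin (ar o) → ℕ) → Bool
  | none, _ => false
  | some (Sum.inl f), v =>
    decide (@Structure.funMap L ℕ S f.1 f.2 (fun i => v i.castSucc) = v (Fin.last f.1))
  | some (Sum.inr r), v => decide (@Structure.RelMap L ℕ S r.1 r.2 v)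

variable (e : ℕ → Option L.Symbols) (he : Function.Surjective e)

/-- coding -/
noncomputable def enc (S : L.Structure ℕ) : RS (fun i => ar (e i)) := fun i v => evr S (e i) v

/-- the index of a relation symbol -/
noncomputable def ix {n : ℕ} (R : L.Relations n) : ℕ := (he (some (Sum.inr ⟨n, R⟩))).choose

theorem ix_spec {n : ℕ} (R : L.Relations n) : e (ix e he R) = some (Sum.inr ⟨n, R⟩) :=
  (he (some (Sum.inr ⟨n, R⟩))).choose_spec

theorem ix_ar {n : ℕ} (R : L.Relations n) : ar (e (ix e he R)) = n := by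
  rw [ix_spec e he R]
  rfl

/-- the index of a function symbol -/
noncomputable def jx {n : ℕ} (F : L.Functions n) : ℕ := (he (some (Sum.inl ⟨n, F⟩))).choose

theorem jx_spec {n : ℕ} (F : L.Functions n) : e (jx e he F) = some (Sum.inl ⟨n, F⟩) :=
  (he (some (Sum.inl ⟨n, F⟩))).choose_spec

theorem jx_ar {n : ℕ} (F : L.Functions n) : ar (e (jx e he F)) = n + 1 := by
  rw [jx_spec e he F]
  rfl

/-- the graph of a function -/
def gph (x : RS (fun i => ar (e i))) {n : ℕ} (F : L.Functions n) (v : Fin n → ℕ) (b : ℕ) : Prop :=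
  x (jx e he F) (fun j => (Fin.snoc v b : Fin (n + 1) → ℕ) (Fin.cast (jx_ar e he F) j)) = true

/-- decoding -/
@[reducible] noncomputable def dec (x : RS (fun i => ar (e i))) : L.Structure ℕ where
  funMap := fun {_} F v => sInf {b | gph e he x F v b}
  RelMap := fun {_} R v => x (ix e he R) (fun j => v (Fin.cast (ix_ar e he R) j)) = true

/-- the graphs are functional -/
def cd (x : RS (fun i => ar (e i))) : Prop :=
  ∀ (f : Σ n, L.Functions n) (v : Fin f.1 → ℕ), ∃ b, gph e he x f.2 v b ∧
    ∀ b', gph e he x f.2 v b' → b' = b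

theorem fun_dec {x : RS (fun i => ar (e i))} (hx : cd e he x) {n : ℕ} (F : L.Functions n)
    (v : Fin n → ℕ) (b : ℕ) : @Structure.funMap L ℕ (dec e he x) n F v = b ↔
      gph e he x F v b := by
  obtain ⟨b0, h1, h2⟩ := hx ⟨n, F⟩ v
  have h3 : {b | gph e he x F v b} = {b0} := by
    ext b'
    constructor
    · exact fun h => h2 b' h
    · rintro rfl
      exact h1
  have h4 : @Structure.funMap L ℕ (dec e he x) n F v = b0 := by
    show sInf {b | gph e he x F v b} = b0
    rw [h3]
    exact csInf_singleton b0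
  rw [h4]
  constructor
  · rintro rfl
    exact h1
  · intro h
    exact (h2 b h).symm

theorem rel_dec (x : RS (fun i => ar (e i))) {n : ℕ} (R : L.Relations n)
    (v : Fin n → ℕ) : @Structure.RelMap L ℕ (dec e he x) n R v ↔
      x (ix e he R) (fun j => v (Fin.cast (ix_ar e he R) j)) = true := Iff.rfl

theorem evr_cast (S : L.Structure ℕ) {n : ℕ} (R : L.Relations n)
    (o : Option L.Symbols) (h : o = some (Sum.inr ⟨n, R⟩)) (h' : ar o = n) (v : Fin n → ℕ) :
    evr S o (fun j => v (Fin.cast h' j)) = true ↔ @Structure.RelMap L ℕ S n R v := by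
  classical
  subst h
  exact decide_eq_true_iff

theorem evr_castF (S : L.Structure ℕ) {n : ℕ} (F : L.Functions n)
    (o : Option L.Symbols) (h : o = some (Sum.inl ⟨n, F⟩)) (h' : ar o = n + 1)
    (v : Fin (n + 1) → ℕ) : evr S o (fun j => v (Fin.cast h' j)) = true ↔
      @Structure.funMap L ℕ S n F (fun i => v i.castSucc) = v (Fin.last n) := by
  classical
  subst h
  exact decide_eq_true_iff

theorem gph_enc (S : L.Structure ℕ) {n : ℕ} (F : L.Functions n) (v : Fin n → ℕ) (b : ℕ) :
    gph e he (enc e S) F v b ↔ @Structure.funMap L ℕ S n F v = b := by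
  have h := evr_castF S F _ (jx_spec e he F) (jx_ar e he F) (Fin.snoc v b : Fin (n + 1) → ℕ)
  refine h.trans ?_
  have e1 : (fun i : Fin n => (Fin.snoc v b : Fin (n + 1) → ℕ) i.castSucc) = v := by
    funext i
    exact Fin.snoc_castSucc (α := fun _ => ℕ) b v i
  have e2 : (Fin.snoc v b : Fin (n + 1) → ℕ) (Fin.last n) = b :=
    Fin.snoc_last (α := fun _ => ℕ) b v
  rw [e1, e2]

theorem cd_enc (S : L.Structure ℕ) : cd e he (enc e S) := by
  intro f v
  refine ⟨@Structure.funMap L ℕ S f.1 f.2 v, (gph_enc e he S f.2 v _).2 rfl, fun b' h => ?_⟩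
  exact ((gph_enc e he S f.2 v _).1 h).symm

theorem struct_ext {S S' : L.Structure ℕ}
    (h' : ∀ (n : ℕ) (F : L.Functions n) (v : Fin n → ℕ),
      @Structure.funMap L ℕ S n F v = @Structure.funMap L ℕ S' n F v)
    (h : ∀ (n : ℕ) (R : L.Relations n) (v : Fin n → ℕ),
      @Structure.RelMap L ℕ S n R v ↔ @Structure.RelMap L ℕ S' n R v) : S = S' := by
  cases S with
  | mk f r =>
    cases S' with
    | mk f' r' =>
      have h1 : @f = @f' := by
        funext n g v
        exact h' n g v
      have h2 : @r = @r' := by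
        funext n R v
        exact propext (h n R v)
      subst h1 h2
      rfl

theorem dec_enc (S : L.Structure ℕ) : dec e he (enc e S) = S :=
  struct_ext (fun _ F v => (fun_dec e he (cd_enc e he S) F v _).2 ((gph_enc e he S F v _).2 rfl))
    fun _ R v => evr_cast S R _ (ix_spec e he R) (ix_ar e he R) v

/-- isomorphisms -/
def isoOf {S S' : L.Structure ℕ} (σ : Equiv.Perm ℕ)
    (h' : ∀ (n : ℕ) (F : L.Functions n) (v : Fin n → ℕ),
      σ (@Structure.funMap L ℕ S n F v) = @Structure.funMap L ℕ S' n F (⇑σ ∘ v))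
    (h : ∀ (n : ℕ) (R : L.Relations n) (v : Fin n → ℕ),
      @Structure.RelMap L ℕ S' n R (⇑σ ∘ v) ↔ @Structure.RelMap L ℕ S n R v) :
    @FirstOrder.Language.Equiv L ℕ ℕ S S' :=
  @FirstOrder.Language.Equiv.mk L ℕ ℕ S S' σ (fun {n} F v => h' n F v)
    (fun {n} R v => h n R v)

section

variable {x y : RS (fun i => ar (e i))} {σ : Equiv.Perm ℕ}

theorem gph_iso (h : ∀ i (v : Fin (ar (e i)) → ℕ), y i (⇑σ ∘ v) = x i v) {n : ℕ}
    (F : L.Functions n) (v : Fin n → ℕ) (b : ℕ) :
    gph e he y F (⇑σ ∘ v) (σ b) ↔ gph e he x F v b := by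
  unfold gph
  rw [← h]
  have e1 : (fun j => (Fin.snoc (⇑σ ∘ v) (σ b) : Fin (n + 1) → ℕ) (Fin.cast (jx_ar e he F) j)) =
      ⇑σ ∘ fun j => (Fin.snoc v b : Fin (n + 1) → ℕ) (Fin.cast (jx_ar e he F) j) := by
    funext j
    simp only [Function.comp_apply]
    generalize Fin.cast (jx_ar e he F) j = k
    refine Fin.lastCases ?_ (fun i => ?_) k
    · rw [Fin.snoc_last (α := fun _ => ℕ), Fin.snoc_last (α := fun _ => ℕ)]
    · rw [Fin.snoc_castSucc (α := fun _ => ℕ), Fin.snoc_castSucc (α := fun _ => ℕ)]
      rfl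
  rw [e1]

theorem comp_symm {n : ℕ} (v : Fin n → ℕ) : ⇑σ ∘ ⇑σ.symm ∘ v = v := by
  funext j
  simp

theorem cd_iso (h : ∀ i (v : Fin (ar (e i)) → ℕ), y i (⇑σ ∘ v) = x i v) (hx : cd e he x) :
    cd e he y := by
  intro f v
  obtain ⟨b, h1, h2⟩ := hx f (⇑σ.symm ∘ v)
  refine ⟨σ b, ?_, fun b' h3 => ?_⟩
  · have h4 := (gph_iso e he h f.2 (⇑σ.symm ∘ v) b).2 h1
    rwa [comp_symm] at h4
  · obtain ⟨b', rfl⟩ := σ.surjective b'
    rw [← comp_symm (σ := σ) v, gph_iso e he h] at h3
    rw [h2 b' h3]

theorem dec_isoF (h : ∀ i (v : Fin (ar (e i)) → ℕ), y i (⇑σ ∘ v) = x i v) (hx : cd e he x)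
    (n : ℕ) (F : L.Functions n) (v : Fin n → ℕ) :
    σ (@Structure.funMap L ℕ (dec e he x) n F v) =
      @Structure.funMap L ℕ (dec e he y) n F (⇑σ ∘ v) := by
  symm
  rw [fun_dec e he (cd_iso e he h hx), gph_iso e he h, ← fun_dec e he hx]

theorem dec_iso (h : ∀ i (v : Fin (ar (e i)) → ℕ), y i (⇑σ ∘ v) = x i v) (n : ℕ)
    (R : L.Relations n) (v : Fin n → ℕ) : @Structure.RelMap L ℕ (dec e he y) n R (⇑σ ∘ v) ↔
      @Structure.RelMap L ℕ (dec e he x) n R v := by
  rw [rel_dec, rel_dec]
  have := h (ix e he R) (fun j => v (Fin.cast (ix_ar e he R) j))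
  rw [← this]
  exact Iff.rfl

end

open Classical in
theorem enc_iso {S S' : L.Structure ℕ} {σ : Equiv.Perm ℕ}
    (h' : ∀ (n : ℕ) (F : L.Functions n) (v : Fin n → ℕ),
      σ (@Structure.funMap L ℕ S n F v) = @Structure.funMap L ℕ S' n F (⇑σ ∘ v))
    (h : ∀ (n : ℕ) (R : L.Relations n) (v : Fin n → ℕ),
      @Structure.RelMap L ℕ S' n R (⇑σ ∘ v) ↔ @Structure.RelMap L ℕ S n R v)
    (i : ℕ) (v : Fin (ar (e i)) → ℕ) : enc e S' i (⇑σ ∘ v) = enc e S i v := by
  show evr S' (e i) (⇑σ ∘ v) = evr S (e i) v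
  generalize e i = o at v
  cases o with
  | none => rfl
  | some j =>
    cases j with
    | inl f =>
      refine decide_eq_decide.2 ?_
      have h1 := h' f.1 f.2 (fun i => v i.castSucc)
      have h2 : (fun i : Fin f.1 => (⇑σ ∘ v) i.castSucc) = ⇑σ ∘ fun i => v i.castSucc := rfl
      rw [h2, ← h1]
      exact σ.apply_eq_iff_eq
    | inr r => exact decide_eq_decide.2 (h r.1 r.2 v)

section meas

variable {Y : Type} [MeasurableSpace Y]

/-- values of terms are measurable -/
theorem meas_term {f : Y → L.Structure ℕ}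
    (hF : ∀ (n : ℕ) (F : L.Functions n) (v : Fin n → ℕ) (b : ℕ),
      MeasurableSet {y | @Structure.funMap L ℕ (f y) n F v = b}) {β : Type}
    (c : β → ℕ) (t : L.Term β) : ∀ b : ℕ,
      MeasurableSet {y | @Term.realize L ℕ (f y) _ c t = b} := by
  induction t with
  | var i =>
    intro b
    show MeasurableSet {_y : Y | c i = b}
    exact MeasurableSet.const _
  | @func n g ts ih =>
    intro b
    have e1 : {y | @Term.realize L ℕ (f y) _ c (Term.func g ts) = b} =
        ⋃ v : Fin n → ℕ, ((⋂ i, {y | @Term.realize L ℕ (f y) _ c (ts i) = v i}) ∩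
          {y | @Structure.funMap L ℕ (f y) n g v = b}) := by
      ext y
      simp only [mem_iUnion, mem_inter_iff, mem_iInter]
      constructor
      · intro h
        exact ⟨fun i => @Term.realize L ℕ (f y) _ c (ts i), fun i => rfl, h⟩
      · rintro ⟨v, h1, h2⟩
        have h3 : (fun i => @Term.realize L ℕ (f y) _ c (ts i)) = v := funext h1
        show @Structure.funMap L ℕ (f y) n g (fun i => @Term.realize L ℕ (f y) _ c (ts i)) = b
        rw [h3]
        exact h2
    rw [e1]
    exact MeasurableSet.iUnion fun v => (MeasurableSet.iInter fun i => ih i (v i)).inter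
      (hF n g v b)

/-- satisfaction is measurable -/
theorem meas_realize {f : Y → L.Structure ℕ}
    (hF : ∀ (n : ℕ) (F : L.Functions n) (v : Fin n → ℕ) (b : ℕ),
      MeasurableSet {y | @Structure.funMap L ℕ (f y) n F v = b})
    (hf : ∀ (n : ℕ) (R : L.Relations n) (v : Fin n → ℕ),
      MeasurableSet {y | @Structure.RelMap L ℕ (f y) n R v}) {β : Type} {n : ℕ}
    (φ : L.BoundedFormula β n) (c : β → ℕ) (d : Fin n → ℕ) :
    MeasurableSet {y | @BoundedFormula.Realize L ℕ (f y) _ _ φ c d} := by
  induction φ with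
  | falsum =>
    have e1 : {y : Y | @BoundedFormula.Realize L ℕ (f y) _ _ BoundedFormula.falsum c d} = ∅ := rfl
    rw [e1]
    exact MeasurableSet.empty
  | @equal n t1 t2 =>
    have e1 : {y : Y | @BoundedFormula.Realize L ℕ (f y) _ _ (BoundedFormula.equal t1 t2) c d} =
        ⋃ b : ℕ, ({y | @Term.realize L ℕ (f y) _ (Sum.elim c d) t1 = b} ∩
          {y | @Term.realize L ℕ (f y) _ (Sum.elim c d) t2 = b}) := by
      ext y
      simp only [mem_iUnion, mem_inter_iff]
      constructor
      · intro h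
        have h1 : @Term.realize L ℕ (f y) _ (Sum.elim c d) t1 =
          @Term.realize L ℕ (f y) _ (Sum.elim c d) t2 := h
        exact ⟨_, rfl, h1.symm⟩
      · rintro ⟨b, h1, h2⟩
        show @Term.realize L ℕ (f y) _ (Sum.elim c d) t1 =
          @Term.realize L ℕ (f y) _ (Sum.elim c d) t2
        exact Eq.trans h1 (Eq.symm h2)
    rw [e1]
    exact MeasurableSet.iUnion fun b => (meas_term hF _ _ b).inter (meas_term hF _ _ b)
  | @rel n l R ts =>
    have e1 : {y : Y | @BoundedFormula.Realize L ℕ (f y) _ _ (BoundedFormula.rel R ts) c d} =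
        ⋃ v : Fin l → ℕ, ((⋂ i, {y | @Term.realize L ℕ (f y) _ (Sum.elim c d) (ts i) = v i}) ∩
          {y | @Structure.RelMap L ℕ (f y) l R v}) := by
      ext y
      simp only [mem_iUnion, mem_inter_iff, mem_iInter]
      constructor
      · intro h
        exact ⟨fun i => @Term.realize L ℕ (f y) _ (Sum.elim c d) (ts i), fun i => rfl, h⟩
      · rintro ⟨v, h1, h2⟩
        have h3 : (fun i => @Term.realize L ℕ (f y) _ (Sum.elim c d) (ts i)) = v := funext h1
        show @Structure.RelMap L ℕ (f y) l R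
          (fun i => @Term.realize L ℕ (f y) _ (Sum.elim c d) (ts i))
        rw [h3]
        exact h2
    rw [e1]
    exact MeasurableSet.iUnion fun v => (MeasurableSet.iInter fun i =>
      meas_term hF _ _ (v i)).inter (hf l R v)
  | @imp n f1 f2 h1 h2 =>
    have e1 : {y : Y | @BoundedFormula.Realize L ℕ (f y) _ _ (f1.imp f2) c d} =
        {y | @BoundedFormula.Realize L ℕ (f y) _ _ f1 c d}ᶜ ∪
          {y | @BoundedFormula.Realize L ℕ (f y) _ _ f2 c d} := by
      ext y
      show (_ → _) ↔ (¬ _) ∨ _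
      exact imp_iff_not_or
    rw [e1]
    exact (h1 d).compl.union (h2 d)
  | @all n g h =>
    have e1 : {y : Y | @BoundedFormula.Realize L ℕ (f y) _ _ g.all c d} =
        ⋂ k : ℕ, {y | @BoundedFormula.Realize L ℕ (f y) _ _ g c (Fin.snoc d k)} := by
      ext y
      rw [mem_iInter]
      exact Iff.rfl
    rw [e1]
    exact MeasurableSet.iInter fun k => h (Fin.snoc d k)

end meas

theorem clopen_gph {n : ℕ} (F : L.Functions n) (v : Fin n → ℕ) (b : ℕ) :
    IsClopen {x : RS (fun i => ar (e i)) | gph e he x F v b} := by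
  have h1 : Continuous fun x : RS (fun i => ar (e i)) =>
      x (jx e he F) (fun j => (Fin.snoc v b : Fin (n + 1) → ℕ) (Fin.cast (jx_ar e he F) j)) :=
    (continuous_apply _).comp (continuous_apply (jx e he F))
  exact (isClopen_discrete {true}).preimage h1

theorem meas_gph {n : ℕ} (F : L.Functions n) (v : Fin n → ℕ) (b : ℕ) :
    MeasurableSet {x : RS (fun i => ar (e i)) | gph e he x F v b} :=
  (clopen_gph e he F v b).isOpen.measurableSet

theorem meas_fun {n : ℕ} (F : L.Functions n) (v : Fin n → ℕ) (b : ℕ) :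
    MeasurableSet {x : RS (fun i => ar (e i)) |
      @Structure.funMap L ℕ (dec e he x) n F v = b} := by
  have e1 : {x : RS (fun i => ar (e i)) | @Structure.funMap L ℕ (dec e he x) n F v = b} =
      ({x | gph e he x F v b} ∩ ⋂ k : ℕ, ({x | gph e he x F v k}ᶜ ∪ {_x | b ≤ k})) ∪
        ({_x | b = 0} ∩ ⋂ k : ℕ, {x | gph e he x F v k}ᶜ) := by
    ext x
    simp only [mem_union, mem_inter_iff, mem_iInter, mem_compl_iff, mem_ofPred_eq]
    show sInf {b | gph e he x F v b} = b ↔ _
    constructor
    · intro h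
      by_cases h2 : ∃ k, gph e he x F v k
      · left
        have h3 := Nat.sInf_mem (s := {b | gph e he x F v b}) h2
        rw [h] at h3
        refine ⟨h3, fun k => ?_⟩
        by_cases h4 : gph e he x F v k
        · right
          rw [← h]
          exact Nat.sInf_le h4
        · exact Or.inl h4
      · right
        push Not at h2
        refine ⟨?_, h2⟩
        have h3 : {b | gph e he x F v b} = ∅ := by
          ext k
          simpa using h2 k
        rw [h3, Nat.sInf_empty] at h
        exact h.symm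
    · rintro (⟨h1, h2⟩ | ⟨h1, h2⟩)
      · apply le_antisymm (Nat.sInf_le h1)
        have h3 := Nat.sInf_mem (s := {b | gph e he x F v b}) ⟨b, h1⟩
        exact (h2 _).resolve_left (fun h => h h3)
      · have h3 : {b | gph e he x F v b} = ∅ := by
          ext k
          simpa using h2 k
        rw [h3, Nat.sInf_empty, h1]
  rw [e1]
  exact ((meas_gph e he F v b).inter (MeasurableSet.iInter fun k =>
    (meas_gph e he F v k).compl.union (MeasurableSet.const _))).union
    ((MeasurableSet.const _).inter (MeasurableSet.iInter fun k => (meas_gph e he F v k).compl))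

theorem clopen_rel {n : ℕ} (R : L.Relations n) (v : Fin n → ℕ) :
    IsClopen {x : RS (fun i => ar (e i)) | @Structure.RelMap L ℕ (dec e he x) n R v} := by
  have h1 : Continuous fun x : RS (fun i => ar (e i)) =>
      x (ix e he R) (fun j => v (Fin.cast (ix_ar e he R) j)) :=
    (continuous_apply _).comp (continuous_apply (ix e he R))
  exact (isClopen_discrete {true}).preimage h1

theorem meas_rel {n : ℕ} (R : L.Relations n) (v : Fin n → ℕ) :
    MeasurableSet {x : RS (fun i => ar (e i)) | @Structure.RelMap L ℕ (dec e he x) n R v} :=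
  (clopen_rel e he R v).isOpen.measurableSet

theorem meas_cd (hL : Countable L.Symbols) :
    MeasurableSet {x : RS (fun i => ar (e i)) | cd e he x} := by
  have hF : Countable (Σ n, L.Functions n) := by
    have hL' : Countable ((Σ n, L.Functions n) ⊕ Σ n, L.Relations n) := hL
    exact (Sum.inl_injective (β := Σ n, L.Relations n)).countable
  have e1 : {x : RS (fun i => ar (e i)) | cd e he x} =
      ⋂ f : Σ n, L.Functions n, ⋂ v : Fin f.1 → ℕ, ⋃ b : ℕ, ({x | gph e he x f.2 v b} ∩
        ⋂ b' : ℕ, ({x | gph e he x f.2 v b'}ᶜ ∪ {_x | b' = b})) := by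
    ext x
    simp only [mem_iUnion, mem_union, mem_inter_iff, mem_iInter, mem_compl_iff, mem_ofPred_eq]
    unfold cd
    refine forall_congr' fun f => forall_congr' fun v => exists_congr fun b =>
      and_congr_right fun _ => forall_congr' fun b' => ?_
    exact imp_iff_not_or
  rw [e1]
  exact MeasurableSet.iInter fun f => MeasurableSet.iInter fun v => MeasurableSet.iUnion fun b =>
    (meas_gph e he _ _ _).inter (MeasurableSet.iInter fun b' =>
      (meas_gph e he _ _ _).compl.union (MeasurableSet.const _))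

/-- the codes of the models -/
def BT (T : L.Theory) : Set (RS (fun i => ar (e i))) :=
  {x | (enc e (dec e he x) = x ∧ cd e he x) ∧ @Theory.Model L ℕ (dec e he x) T}

theorem meas_BT (hL : Countable L.Symbols) (T : L.Theory) : MeasurableSet (BT e he T) := by
  classical
  have h1 : MeasurableSet {x : RS (fun i => ar (e i)) | enc e (dec e he x) = x} := by
    have e1 : {x : RS (fun i => ar (e i)) | enc e (dec e he x) = x} =
        ⋂ i : ℕ, ⋂ v : Fin (ar (e i)) → ℕ, {x | evr (dec e he x) (e i) v = x i v} := by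
      ext x
      simp only [mem_iInter]
      constructor
      · intro h i v
        exact congrFun (congrFun h i) v
      · intro h
        funext i v
        exact h i v
    rw [e1]
    refine MeasurableSet.iInter fun i => MeasurableSet.iInter fun v => ?_
    have h2 : MeasurableSet {x : RS (fun i => ar (e i)) | x i v = true} := by
      have h3 : Continuous fun x : RS (fun i => ar (e i)) => x i v :=
        (continuous_apply v).comp (continuous_apply i)
      exact ((isClopen_discrete {true}).preimage h3).isOpen.measurableSet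
    have h3 : ∀ (o : Option L.Symbols) (v : Fin (ar o) → ℕ),
        MeasurableSet {x : RS (fun i => ar (e i)) | evr (dec e he x) o v = true} := by
      intro o v
      rcases o with _ | f | r
      · have e2 : {x : RS (fun i => ar (e i)) | evr (dec e he x) none v = true} = ∅ := by
          ext x
          simp [evr]
        rw [e2]
        exact MeasurableSet.empty
      · have e2 : {x : RS (fun i => ar (e i)) | evr (dec e he x) (some (Sum.inl f)) v = true} =
            {x | @Structure.funMap L ℕ (dec e he x) f.1 f.2 (fun i => v i.castSucc) =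
              v (Fin.last f.1)} := by
          ext x
          exact decide_eq_true_iff
        rw [e2]
        exact meas_fun e he f.2 _ _
      · have e2 : {x : RS (fun i => ar (e i)) | evr (dec e he x) (some (Sum.inr r)) v = true} =
            {x | @Structure.RelMap L ℕ (dec e he x) r.1 r.2 v} := by
          ext x
          exact decide_eq_true_iff
        rw [e2]
        exact meas_rel e he r.2 v
    have e3 : {x : RS (fun i => ar (e i)) | evr (dec e he x) (e i) v = x i v} =
        ({x | evr (dec e he x) (e i) v = true} ∩ {x | x i v = true}) ∪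
        ({x | evr (dec e he x) (e i) v = true}ᶜ ∩ {x | x i v = true}ᶜ) := by
      ext x
      simp only [mem_ofPred_eq, mem_union, mem_inter_iff, mem_compl_iff]
      cases evr (dec e he x) (e i) v <;> cases x i v <;> simp
    rw [e3]
    exact ((h3 _ v).inter h2).union ((h3 _ v).compl.inter h2.compl)
  have hcs : Countable L.Sentence := by
    have h3 : Cardinal.mk (Σ n, L.BoundedFormula Empty n) ≤ Cardinal.aleph0 := by
      refine BoundedFormula.card_le.trans ?_
      refine max_le le_rfl ?_
      rw [Cardinal.mk_eq_zero Empty]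
      simp only [zero_add, Cardinal.lift_id]
      exact Cardinal.mk_le_aleph0
    have h4 : Countable (Σ n, L.BoundedFormula Empty n) := Cardinal.mk_le_aleph0_iff.1 h3
    exact (sigma_mk_injective (β := fun n => L.BoundedFormula Empty n) (i := 0)).countable
  have h2 : MeasurableSet {x : RS (fun i => ar (e i)) |
      @Theory.Model L ℕ (dec e he x) T} := by
    have e1 : {x : RS (fun i => ar (e i)) | @Theory.Model L ℕ (dec e he x) T} =
        ⋂ φ : T, {x | @Sentence.Realize L ℕ (dec e he x) φ} := by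
      ext x
      rw [mem_iInter]
      constructor
      · intro h φ
        exact @Theory.realize_sentence_of_mem L ℕ (dec e he x) T h φ φ.2
      · intro h
        exact @Theory.Model.mk L ℕ (dec e he x) T fun φ hφ => h ⟨φ, hφ⟩
    rw [e1]
    have : Countable T := Subtype.countable
    exact MeasurableSet.iInter fun φ => meas_realize (fun n F v b => meas_fun e he F v b)
      (fun n R v => meas_rel e he R v) _ _ _
  exact (h1.inter (meas_cd e he hL)).inter h2

theorem inv_BT (T : L.Theory) (x y : RS (fun i => ar (e i))) (h : RIso x y) :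
    x ∈ BT e he T ↔ y ∈ BT e he T := by
  have key : ∀ x y : RS (fun i => ar (e i)), RIso x y → x ∈ BT e he T → y ∈ BT e he T := by
    rintro x y ⟨σ, h⟩ ⟨⟨h1, hc⟩, h2⟩
    refine ⟨⟨?_, cd_iso e he h hc⟩, ?_⟩
    · funext i v
      have h3 := enc_iso e (dec_isoF e he h hc) (dec_iso e he h) i (⇑σ.symm ∘ v)
      have h4 := h i (⇑σ.symm ∘ v)
      have e1 : ⇑σ ∘ ⇑σ.symm ∘ v = v := by
        funext j
        simp
      rw [e1] at h3 h4
      rw [h3, h4, h1]
    · exact @StrongHomClass.theory_model L ℕ ℕ (dec e he x) (dec e he y) T _ _ _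
        (isoOf σ (dec_isoF e he h hc) (dec_iso e he h)) h2
  refine ⟨key x y h, key y x ?_⟩
  obtain ⟨σ, h⟩ := h
  refine ⟨σ.symm, fun i v => ?_⟩
  rw [← h]
  congr 1
  funext j
  simp

/-! ### Relations given by formulas -/

/-- the relation defined by a formula -/
def FD (F : ℕ → Σ n, L.Formula (Fin n ⊕ Fin 2)) (A : Set ℕ) (j : ℕ) (p : List ℕ)
    (x : RS (fun i => ar (e i))) (u v : ℕ) : Prop :=
  (j ∈ A ∧ cd e he x) ∧ ∃ h : p.length = (F j).1, @Formula.Realize L ℕ (dec e he x) _ (F j).2
    (Sum.elim (fun i => p.get (Fin.cast h.symm i)) ![u, v])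

theorem act_rel {a : ℕ → ℕ} (σ : Equiv.Perm ℕ) (x : RS a) (i : ℕ) (v : Fin (a i) → ℕ) :
    act σ x i (⇑σ ∘ v) = x i v := by
  unfold act
  congr 1
  funext j
  simp

theorem fam_FD (hL : Countable L.Symbols) (F : ℕ → Σ n, L.Formula (Fin n ⊕ Fin 2)) (A : Set ℕ) :
    DefR (FD e he F A) := by
  refine ⟨fun k p m n => ?_, fun k p x σ m n => ?_⟩
  · by_cases h : k ∈ A ∧ p.length = (F k).1
    · have e1 : {x : RS (fun i => ar (e i)) | FD e he F A k p x m n} =
          {x | cd e he x} ∩ {x | @Formula.Realize L ℕ (dec e he x) _ (F k).2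
            (Sum.elim (fun i => p.get (Fin.cast h.2.symm i)) ![m, n])} := by
        ext x
        exact ⟨fun ⟨h0, _, h1⟩ => ⟨h0.2, h1⟩, fun h1 => ⟨⟨h.1, h1.1⟩, h.2, h1.2⟩⟩
      rw [e1]
      exact (meas_cd e he hL).inter (meas_realize (fun n F v b => meas_fun e he F v b)
        (fun n R v => meas_rel e he R v) _ _ _)
    · have e1 : {x : RS (fun i => ar (e i)) | FD e he F A k p x m n} = ∅ := by
        ext x
        exact ⟨fun ⟨h0, h1, _⟩ => absurd ⟨h0.1, h1⟩ h, fun h1 => absurd h1 (notMem_empty _)⟩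
      rw [e1]
      exact MeasurableSet.empty
  · have hcd : cd e he (act σ x) ↔ cd e he x := by
      constructor
      · intro h
        refine cd_iso e he (σ := σ.symm) (x := act σ x) (y := x) (fun i v => ?_) h
        rfl
      · intro h
        exact cd_iso e he (σ := σ) (x := x) (y := act σ x) (fun i v => act_rel σ x i v) h
    have h2 : cd e he x → ∀ c : Fin (F k).1 ⊕ Fin 2 → ℕ,
        @Formula.Realize L ℕ (dec e he x) _ (F k).2 c ↔
          @Formula.Realize L ℕ (dec e he (act σ x)) _ (F k).2 (fun i => σ (c i)) := by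
      intro hx c
      have h0 := dec_isoF e he (fun i v => act_rel σ x i v) hx
      have h1 := dec_iso e he (fun i v => act_rel σ x i v)
      exact (@StrongHomClass.realize_formula L ℕ ℕ (dec e he x) (dec e he (act σ x)) _ _ _ _
        (isoOf σ h0 h1) (F k).2 c).symm
    unfold FD
    rw [hcd]
    refine and_congr_right fun hA => ?_
    constructor
    · rintro ⟨h, h3⟩
      have h' : p.length = (F k).1 := by rw [← h, List.length_map]
      refine ⟨h', (h2 hA.2 _).2 ?_⟩
      convert h3 using 2
      rename_i i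
      rcases i with i | i
      · simp
      · fin_cases i <;> rfl
    · rintro ⟨h', h3⟩
      have h : (p.map σ).length = (F k).1 := by rw [← h', List.length_map]
      refine ⟨h, ?_⟩
      have h4 := (h2 hA.2 _).1 h3
      convert h4 using 2
      rename_i i
      rcases i with i | i
      · simp
      · fin_cases i <;> rfl

theorem fd_key (S : L.Structure ℕ) (k : ℕ) (φ : L.Formula (Fin k ⊕ Fin 2)) (p : Fin k → ℕ)
    (u v : ℕ) (q : Σ n, L.Formula (Fin n ⊕ Fin 2)) (hq : q = ⟨k, φ⟩) :
    (∃ h : (List.ofFn p).length = q.1, @Formula.Realize L ℕ S _ q.2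
      (Sum.elim (fun i => (List.ofFn p).get (Fin.cast h.symm i)) ![u, v])) ↔
    @Formula.Realize L ℕ S _ φ (Sum.elim p ![u, v]) := by
  subst hq
  have key : ∀ h : (List.ofFn p).length = k,
      (Sum.elim (fun i => (List.ofFn p).get (Fin.cast h.symm i)) ![u, v] : Fin k ⊕ Fin 2 → ℕ) =
        Sum.elim p ![u, v] := by
    intro h
    funext i
    rcases i with i | i
    · simp
    · rfl
  constructor
  · rintro ⟨h, h3⟩
    simp only at h3
    rw [key h] at h3
    exact h3
  · intro h3
    refine ⟨by simp, ?_⟩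
    simp only
    rw [key (by simp)]
    exact h3

/-- the dichotomy -/
def FDich (T : L.Theory) : Prop :=
  (∃ g : ℕ → L.Structure ℕ, ∀ S : L.Structure ℕ, @Theory.Model L ℕ S T →
      ∃ n : ℕ, Nonempty (@FirstOrder.Language.Equiv L ℕ ℕ S (g n))) ∨
  (∃ f : (ℕ → Bool) → L.Structure ℕ, (∀ x : ℕ → Bool, @Theory.Model L ℕ (f x) T) ∧
    (∀ x y : ℕ → Bool, Nonempty (@FirstOrder.Language.Equiv L ℕ ℕ (f x) (f y)) → x = y) ∧
    (∀ (n : ℕ) (R : L.Relations n) (a : Fin n → ℕ),
      IsClopen {x : ℕ → Bool | @Structure.RelMap L ℕ (f x) n R a}) ∧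
    (∀ (n : ℕ) (F : L.Functions n) (a : Fin n → ℕ) (b : ℕ),
      IsOpen {x : ℕ → Bool | @Structure.funMap L ℕ (f x) n F a = b}))

/-- The dichotomy for the models of `T` from the conjecture for a class of structures. -/
theorem dichotomy_gen (hL : Countable L.Symbols) (T : L.Theory)
    (e : ℕ → Option L.Symbols) (he : Function.Surjective e)
    (W : RS (fun i => ar (e i)) → Prop) (hW : VC W)
    (hT : ∀ S : L.Structure ℕ, @Theory.Model L ℕ S T → W (enc e S)) : FDich T := by
  have hw : ∀ x ∈ BT e he T, W x := by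
    rintro x ⟨⟨h1, -⟩, h2⟩
    rw [← h1]
    exact hT _ h2
  rcases hW (BT e he T) (meas_BT e he hL T) (inv_BT e he T) hw with ⟨f, hf⟩ | ⟨g, hg, hgB, hgi⟩
  · left
    refine ⟨fun n => dec e he (f n), fun S hS => ?_⟩
    have h1 : enc e S ∈ BT e he T := by
      refine ⟨⟨by rw [dec_enc], cd_enc e he S⟩, ?_⟩
      rw [dec_enc]
      exact hS
    obtain ⟨n, σ, hσ⟩ := hf _ h1
    have hn : f n ∈ BT e he T := (inv_BT e he T _ _ ⟨σ, hσ⟩).2 h1
    refine ⟨n, ⟨?_⟩⟩
    have h2 := isoOf σ (dec_isoF e he hσ hn.1.2) (dec_iso e he hσ)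
    rw [dec_enc] at h2
    exact @FirstOrder.Language.Equiv.symm L ℕ ℕ (dec e he (f n)) S h2
  · right
    refine ⟨fun c => dec e he (g c), fun c => (hgB c).2, fun c d h => ?_, fun n R v => ?_,
      fun n F v b => ?_⟩
    · obtain ⟨τ⟩ := h
      refine hgi c d ⟨@FirstOrder.Language.Equiv.toEquiv L ℕ ℕ (dec e he (g c)) (dec e he (g d)) τ,
        fun i v => ?_⟩
      have h1 := enc_iso e (S := dec e he (g c)) (S' := dec e he (g d))
        (σ := @FirstOrder.Language.Equiv.toEquiv L ℕ ℕ (dec e he (g c)) (dec e he (g d)) τ)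
        (fun n F v => @FirstOrder.Language.Equiv.map_fun' L ℕ ℕ (dec e he (g c))
          (dec e he (g d)) τ n F v)
        (fun n R v => @FirstOrder.Language.Equiv.map_rel' L ℕ ℕ (dec e he (g c))
          (dec e he (g d)) τ n R v) i v
      rw [(hgB c).1.1, (hgB d).1.1] at h1
      exact h1
    · exact (clopen_rel e he R v).preimage hg
    · have e1 : {c : ℕ → Bool | @Structure.funMap L ℕ (dec e he (g c)) n F v = b} =
          g ⁻¹' {x | gph e he x F v b} := by
        ext c
        exact fun_dec e he (hgB c).1.2 F v b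
      rw [e1]
      exact ((clopen_gph e he F v b).preimage hg).isOpen

theorem countable_formula (hL : Countable L.Symbols) (j : ℕ) :
    Countable (Σ n, L.Formula (Fin n ⊕ Fin j)) := by
  have hk : ∀ n, Countable (L.Formula (Fin n ⊕ Fin j)) := by
    intro n
    have h3 : Cardinal.mk (Σ k, L.BoundedFormula (Fin n ⊕ Fin j) k) ≤ Cardinal.aleph0 := by
      refine BoundedFormula.card_le.trans ?_
      refine max_le le_rfl ?_
      refine Cardinal.add_le_aleph0.2 ⟨?_, ?_⟩
      · simp only [Cardinal.lift_id]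
        exact Cardinal.mk_le_aleph0
      · simp only [Cardinal.lift_id]
        exact Cardinal.mk_le_aleph0
    have h4 : Countable (Σ k, L.BoundedFormula (Fin n ⊕ Fin j) k) :=
      Cardinal.mk_le_aleph0_iff.1 h3
    exact (sigma_mk_injective (β := fun k => L.BoundedFormula (Fin n ⊕ Fin j) k)
      (i := 0)).countable
  infer_instance

/-- `v` is named by `u`: it is the only element satisfying `φ(p, u, v)` for some `φ` in `Φ`. -/
def Nms (S : L.Structure ℕ) {k : ℕ} (p : Fin k → ℕ) (Φ : Set (L.Formula (Fin k ⊕ Fin 2)))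
    (u v : ℕ) : Prop :=
  ∃ φ ∈ Φ, @Formula.Realize L ℕ S _ φ (Sum.elim p ![u, v]) ∧
    ∀ w, @Formula.Realize L ℕ S _ φ (Sum.elim p ![u, w]) → w = v

/-- **The first-order form.** -/
theorem fo_main (hL : Countable L.Symbols) (T : L.Theory)
    (Φ : ℕ → (m : ℕ) → Set (L.Formula (Fin m ⊕ Fin 2)))
    (hT : ∀ S : L.Structure ℕ, @Theory.Model L ℕ S T → ∃ (k m : ℕ) (p : Fin m → ℕ),
      (∀ u v w, Relation.ReflTransGen (Nms S p (Φ k m)) u v →
        Relation.ReflTransGen (Nms S p (Φ k m)) u w →
        Relation.ReflTransGen (Nms S p (Φ k m)) v w ∨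
          Relation.ReflTransGen (Nms S p (Φ k m)) w v) ∧
      (∀ (n : ℕ) (R : L.Relations n) (v : Fin n → ℕ), @Structure.RelMap L ℕ S n R v →
        ∃ u, ∀ i, Relation.ReflTransGen (Nms S p (Φ k m)) u (v i)) ∧
      ∀ (n : ℕ) (F : L.Functions n) (v : Fin n → ℕ), ∃ u,
        Relation.ReflTransGen (Nms S p (Φ k m)) u (@Structure.funMap L ℕ S n F v) ∧
          ∀ i, Relation.ReflTransGen (Nms S p (Φ k m)) u (v i)) : FDich T := by
  classical
  have hne : Nonempty (Option L.Symbols) := ⟨none⟩
  obtain ⟨e, he⟩ : ∃ e : ℕ → Option L.Symbols, Function.Surjective e := exists_surjective_nat _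
  have hcf := countable_formula hL 2
  have hne' : Nonempty (Σ n, L.Formula (Fin n ⊕ Fin 2)) := ⟨⟨0, ⊥⟩⟩
  obtain ⟨F, hF⟩ : ∃ F : ℕ → Σ n, L.Formula (Fin n ⊕ Fin 2), Function.Surjective F :=
    exists_surjective_nat _
  let D : ℕ → ℕ → List ℕ → RS (fun i => ar (e i)) → ℕ → ℕ → Prop := fun k =>
    FD e he F {j | (F j).2 ∈ Φ k (F j).1}
  refine dichotomy_gen hL T e he (WW D) (vc_WW fun k => fam_FD e he hL F _) fun S hS => ?_
  obtain ⟨k, m, p, h1, h2, h3⟩ := hT S hS
  have hstep : ∀ u v, Nms S p (Φ k m) u v ↔ ∃ j, Nam (D k) (List.ofFn p) (enc e S) j u v := by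
    intro u v
    constructor
    · rintro ⟨φ, hφ, h4, h5⟩
      obtain ⟨j, hj⟩ := hF ⟨m, φ⟩
      have hmem : (F j).2 ∈ Φ k (F j).1 := by rw [hj]; exact hφ
      refine ⟨j, ⟨⟨hmem, cd_enc e he S⟩, ?_⟩, fun w hw => ?_⟩
      · rw [dec_enc]
        exact (fd_key S m φ p u v (F j) hj).2 h4
      · apply h5
        have h6 := hw.2
        rw [dec_enc] at h6
        exact (fd_key S m φ p u w (F j) hj).1 h6
    · rintro ⟨j, ⟨⟨hmem, -⟩, h4⟩, h5⟩
      rw [dec_enc] at h4
      have hex : ∃ φ : L.Formula (Fin m ⊕ Fin 2), F j = ⟨m, φ⟩ := by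
        have hlen : (F j).1 = m := by
          obtain ⟨h6, -⟩ := h4
          rw [← h6]
          simp
        have hq : ∀ q : (Σ n, L.Formula (Fin n ⊕ Fin 2)), q.1 = m →
            ∃ φ : L.Formula (Fin m ⊕ Fin 2), q = ⟨m, φ⟩ := by
          rintro ⟨m', φ⟩ rfl
          exact ⟨φ, rfl⟩
        exact hq _ hlen
      obtain ⟨φ, hj⟩ := hex
      have hφ : φ ∈ Φ k m := by
        have h6 : (F j).2 ∈ Φ k (F j).1 := hmem
        rw [hj] at h6
        exact h6
      refine ⟨φ, hφ, (fd_key S m φ p u v (F j) hj).1 h4, fun w hw => ?_⟩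
      apply h5
      refine ⟨⟨hmem, cd_enc e he S⟩, ?_⟩
      rw [dec_enc]
      exact (fd_key S m φ p u w (F j) hj).2 hw
  have hr : ∀ u v, RchD (D k) (List.ofFn p) (enc e S) u v ↔
      Relation.ReflTransGen (Nms S p (Φ k m)) u v := by
    intro u v
    unfold RchD
    have : (fun m n => ∃ j, Nam (D k) (List.ofFn p) (enc e S) j m n) = Nms S p (Φ k m) := by
      funext u v
      exact propext (hstep u v).symm
    rw [this]
  refine ⟨k, List.ofFn p, fun u v w => ?_, fun i v hv => ?_⟩
  · simp only [hr]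
    exact h1 u v w
  · simp only [hr]
    have key : ∀ (o : Option L.Symbols) (v : Fin (ar o) → ℕ), evr S o v = true →
        ∃ u, ∀ t, Relation.ReflTransGen (Nms S p (Φ k m)) u (v t) := by
      intro o v hv
      rcases o with _ | f | r
      · simp [evr] at hv
      · have h4 : @Structure.funMap L ℕ S f.1 f.2 (fun i => v i.castSucc) =
          v (Fin.last f.1) := of_decide_eq_true hv
        obtain ⟨u, h5, h6⟩ := h3 f.1 f.2 (fun i => v i.castSucc)
        refine ⟨u, fun t => ?_⟩
        have h7 : ∀ t : Fin (f.1 + 1), Relation.ReflTransGen (Nms S p (Φ k m)) u (v t) := by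
          intro t
          refine Fin.lastCases ?_ (fun i => ?_) t
          · rw [← h4]
            exact h5
          · exact h6 i
        exact h7 t
      · exact h2 r.1 r.2 v (of_decide_eq_true hv)
    exact key (e i) v hv

end Pool.Agent.N649.KA.FO
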