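import Mathlib

set_option autoImplicit false
set_option linter.unusedSectionVars false

/-! Types of points of acts, and names for them in a free group. -/

namespace Pool.Agent.N649.KA

section ty

variable {S : Type} [Monoid S]

/-- the types of points of acts with unary predicates: the equalities `a m = b m`, and the
predicates of the points `a m` -/
abbrev TY (S : Type) : Type := (S → S → Bool) × (ℕ → S → Bool)

/-- the type of `t m` -/
def sh (t : S) (c : TY S) : TY S := (fun a b => c.1 (a * t) (b * t), fun i a => c.2 i (a * t))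

theorem sh_one (c : TY S) : sh 1 c = c := by
  unfold sh
  simp only [mul_one]

theorem sh_sh (s t : S) (c : TY S) : sh s (sh t c) = sh (s * t) c := by
  unfold sh
  simp only [mul_assoc]

/-- sets of types -/
structure JJ (J : Set (TY S)) : Prop where
  refl : ∀ c ∈ J, ∀ a, c.1 a a = true
  symm : ∀ c ∈ J, ∀ a b, c.1 a b = true → c.1 b a = true
  trans : ∀ c ∈ J, ∀ a b d, c.1 a b = true → c.1 b d = true → c.1 a d = true
  cong : ∀ c ∈ J, ∀ a b s, c.1 a b = true → c.1 (s * a) (s * b) = true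
  pred : ∀ c ∈ J, ∀ a b i, c.1 a b = true → c.2 i a = c.2 i b
  sh : ∀ c ∈ J, ∀ t, sh t c ∈ J

variable {J : Set (TY S)}

/-- the type of `t m`, in `J` -/
def sJ (hJ : JJ J) (t : S) (c : J) : J := ⟨sh t c.1, hJ.sh c.1 c.2 t⟩

theorem sJ_one (hJ : JJ J) (c : J) : sJ hJ 1 c = c := Subtype.ext (sh_one c.1)

theorem sJ_sJ (hJ : JJ J) (s t : S) (c : J) : sJ hJ s (sJ hJ t c) = sJ hJ (s * t) c :=
  Subtype.ext (sh_sh s t c.1)

/-- equal points have equal types -/
theorem sJ_congr (hJ : JJ J) {c : J} {a b : S} (h : c.1.1 a b = true) :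
    sJ hJ a c = sJ hJ b c := by
  have hc := c.2
  refine Subtype.ext (Prod.ext (funext fun s => funext fun t => ?_) (funext fun i => funext fun s =>
    hJ.pred _ hc _ _ i (hJ.cong _ hc _ _ s h)))
  show c.1.1 (s * a) (t * a) = c.1.1 (s * b) (t * b)
  have h1 := hJ.cong _ hc _ _ s h
  have h2 := hJ.cong _ hc _ _ t h
  rw [Bool.eq_iff_iff]
  exact ⟨fun h3 => hJ.trans _ hc _ _ _ (hJ.symm _ hc _ _ h1) (hJ.trans _ hc _ _ _ h3 h2),
    fun h3 => hJ.trans _ hc _ _ _ h1 (hJ.trans _ hc _ _ _ h3 (hJ.symm _ hc _ _ h2))⟩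

/-- names for the points over the points of type in `J` in a group `Γ` with a right action on a
set `O` -/
structure FR (J : Set (TY S)) (hJ : JJ J) (Γ : Type) [Group Γ] (O : Type) where
  R : Γ → O → O
  one : ∀ o, R 1 o = o
  mul : ∀ w w' o, R (w * w') o = R w' (R w o)
  pt : J → S → O
  pt_eq : ∀ c a c' b, pt c a = pt c' b ↔ c = c' ∧ c.1.1 a b = true
  gn : J → S → Γ
  gn_spec : ∀ c t s, R (gn c t) (pt (sJ hJ t c) s) = pt c (s * t)

variable {hJ : JJ J} {Γ : Type} [Group Γ] {O : Type} (F : FR J hJ Γ O)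

/-- `w` is a label of the step from a point of type `c` to the point `t` over it -/
def Lab (c : J) (t : S) (w : Γ) : Prop := ∀ s, F.R w (F.pt (sJ hJ t c) s) = F.pt c (s * t)

variable {F}

theorem FR.inv {w : Γ} {o o' : O} (h : F.R w o = o') : F.R w⁻¹ o' = o := by
  rw [← h, ← F.mul, mul_inv_cancel, F.one]

theorem FR.inj {w : Γ} {o o' : O} (h : F.R w o = F.R w o') : o = o' := by
  rw [← FR.inv (F := F) (w := w) (o := o) rfl, h, FR.inv rfl]

theorem lab_gn (c : J) (t : S) : Lab F c t (F.gn c t) := F.gn_spec c t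

theorem lab_one (c : J) : Lab F c 1 1 := by
  intro s
  rw [F.one, sJ_one, mul_one]

theorem lab_mul {c : J} {t t' : S} {w w' : Γ} (h : Lab F c t w) (h' : Lab F (sJ hJ t c) t' w') :
    Lab F c (t' * t) (w' * w) := by
  intro s
  rw [F.mul, ← sJ_sJ, h', h, mul_assoc]

theorem lab_div {c : J} {t r q : S} {w v : Γ} (h : Lab F c t w) (h' : Lab F c r v)
    (hq : c.1.1 r (q * t) = true) : Lab F (sJ hJ t c) q (v * w⁻¹) := by
  intro s
  rw [F.mul, sJ_sJ, ← sJ_congr hJ hq, h']
  apply FR.inv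
  rw [h, F.pt_eq]
  refine ⟨rfl, ?_⟩
  rw [mul_assoc]
  exact hJ.cong _ c.2 _ _ s (hJ.symm _ c.2 _ _ hq)

theorem lab_id {c : J} {t : S} (h : Lab F c t 1) : sJ hJ t c = c ∧ c.1.1 1 t = true := by
  have h1 := h 1
  rw [F.one, F.pt_eq, one_mul] at h1
  refine ⟨h1.1, ?_⟩
  have h2 := h1.2
  rw [h1.1] at h2
  exact h2

/-- a label of two steps in the two directions -/
theorem lab_unit {c : J} {t t' : S} {w : Γ} (h : Lab F c t w)
    (h' : Lab F (sJ hJ t c) t' w⁻¹) : c.1.1 1 (t' * t) = true := by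
  have h1 := lab_mul h h'
  rw [inv_mul_cancel] at h1
  exact (lab_id h1).2

end ty

/-! ### Existence -/

/-- a bijection of two subsets of a countable set extends to a permutation of a larger set -/
theorem perm_ext {A Y : Type} [Countable Y] (f g : A → Y) (h : ∀ a b, f a = f b ↔ g a = g b) :
    ∃ p : Equiv.Perm (Y ⊕ ℕ), ∀ a, p (Sum.inl (f a)) = Sum.inl (g a) := by
  classical
  let P : Y ⊕ ℕ → Prop := fun x => ∃ a, x = Sum.inl (f a)
  let Q : Y ⊕ ℕ → Prop := fun x => ∃ a, x = Sum.inl (g a)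
  have inf : ∀ (P : Y ⊕ ℕ → Prop), (∀ n, ¬ P (Sum.inr n)) → Infinite {x // ¬ P x} := fun P hP =>
    Infinite.of_injective (fun n : ℕ => (⟨Sum.inr n, hP n⟩ : {x // ¬ P x}))
      fun m n h => Sum.inr_injective (congrArg Subtype.val h)
  have i1 : Infinite {x // ¬ P x} := inf P fun n ⟨a, h⟩ => by cases h
  have i2 : Infinite {x // ¬ Q x} := inf Q fun n ⟨a, h⟩ => by cases h
  obtain ⟨e2⟩ : Nonempty ({x // ¬ P x} ≃ {x // ¬ Q x}) := nonempty_equiv_of_countable
  choose u hu using fun x : {x // P x} => x.2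
  let φ : {x // P x} → {x // Q x} := fun x => ⟨Sum.inl (g (u x)), u x, rfl⟩
  have hφ : Function.Bijective φ := by
    constructor
    · intro x y hxy
      have h1 : g (u x) = g (u y) := Sum.inl_injective (congrArg Subtype.val hxy)
      rw [← h] at h1
      exact Subtype.ext ((hu x).trans ((congrArg Sum.inl h1).trans (hu y).symm))
    · rintro ⟨y, a, rfl⟩
      refine ⟨⟨Sum.inl (f a), a, rfl⟩, Subtype.ext ?_⟩
      show Sum.inl (g (u _)) = Sum.inl (g a)
      have h1 := hu ⟨Sum.inl (f a), a, rfl⟩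
      rw [(h _ _).1 (Sum.inl_injective h1)]
  refine ⟨Equiv.subtypeCongr (Equiv.ofBijective φ hφ) e2, fun a => ?_⟩
  have hP : P (Sum.inl (f a)) := ⟨a, rfl⟩
  have h1 := hu ⟨Sum.inl (f a), hP⟩
  have h2 : Equiv.subtypeCongr (Equiv.ofBijective φ hφ) e2 (Sum.inl (f a)) =
      (φ ⟨Sum.inl (f a), hP⟩ : Y ⊕ ℕ) := by
    simp [Equiv.subtypeCongr, hP]
  rw [h2]
  show Sum.inl (g (u _)) = Sum.inl (g a)
  rw [(h _ _).1 (Sum.inl_injective h1)]

/-- there are names in a countable group -/
theorem exists_frame {S : Type} [Monoid S] [Countable S] (J : Set (TY S)) (hJ : JJ J)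
    (hc : J.Countable) : ∃ (Γ : Type) (_ : Group Γ) (_ : Countable Γ) (O : Type),
      Nonempty (FR J hJ Γ O) := by
  classical
  have : Countable J := hc.to_subtype
  let sd : Setoid (J × S) :=
    { r := fun a b => a.1 = b.1 ∧ a.1.1.1 a.2 b.2 = true
      iseqv := ⟨fun a => ⟨rfl, hJ.refl _ a.1.2 _⟩, fun {a b} h => ⟨h.1.symm, by
        rw [← h.1]
        exact hJ.symm _ a.1.2 _ _ h.2⟩, fun {a b d} h h' => ⟨h.1.trans h'.1, by
        have h2 := h'.2
        rw [← h.1] at h2
        exact hJ.trans _ a.1.2 _ _ _ h.2 h2⟩⟩ }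
  let Y : Type := Quotient sd
  have hY : Countable Y := Quotient.countable
  let pt : J → S → Y := fun c a => Quotient.mk sd (c, a)
  have hpt : ∀ c a c' b, pt c a = pt c' b ↔ c = c' ∧ c.1.1 a b = true := by
    intro c a c' b
    constructor
    · intro h
      exact Quotient.exact (s := sd) h
    · intro h
      exact Quotient.sound (s := sd) h
  have hp : ∀ x : J × S, ∃ p : Equiv.Perm (Y ⊕ ℕ), ∀ s,
      p (Sum.inl (pt (sJ hJ x.2 x.1) s)) = Sum.inl (pt x.1 (s * x.2)) := fun x =>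
    perm_ext (fun s => pt (sJ hJ x.2 x.1) s) (fun s => pt x.1 (s * x.2)) fun a b => by
      rw [hpt, hpt]
      exact ⟨fun h => ⟨rfl, h.2⟩, fun h => ⟨rfl, h.2⟩⟩
  choose p hp using hp
  let θ : FreeGroup (J × S) →* (Equiv.Perm (Y ⊕ ℕ))ᵐᵒᵖ :=
    FreeGroup.lift fun x => MulOpposite.op (p x)
  refine ⟨FreeGroup (J × S), inferInstance, ?_, Y ⊕ ℕ, ⟨
    { R := fun w o => (θ w).unop o
      one := fun o => by
        rw [map_one]
        rfl
      mul := fun w w' o => by
        rw [map_mul, MulOpposite.unop_mul]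
        rfl
      pt := fun c a => Sum.inl (pt c a)
      pt_eq := fun c a c' b => by
        rw [Sum.inl_injective.eq_iff]
        exact hpt c a c' b
      gn := fun c t => FreeGroup.of (c, t)
      gn_spec := fun c t s => by
        show (FreeGroup.lift (fun x => MulOpposite.op (p x)) (FreeGroup.of (c, t))).unop _ = _
        rw [FreeGroup.lift_apply_of]
        exact hp (c, t) s }⟩⟩
  exact (FreeGroup.toWord_injective (α := J × S)).countable

end Pool.Agent.N649.KA
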