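import Pool.Agent.N649.KA.ZQ
import Pool.Agent.Y561.AC.PosF
import Pool.Agent.H565R2.FO2.USec

set_option autoImplicit false
set_option linter.unusedSectionVars false

/-! Acts with chains as one-generated subacts: Vaught's conjecture. -/

namespace Pool.Agent.N649.KA

open Pool.Agent.W889.VC (BP cont_of_meas)
open Pool.Agent.W889.SD (equiv_of_rel nth_equiv Nth Ind ind_iff bp_nth bp_ind)
open Pool.Agent.H566P (XG Isom)
open Pool.Agent.Y561.AC (XS SIso SIso.symm SIso.trans lZ cZ bp_lZ bp_cZ bp_aZ inf_iff')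

variable {S : Type} [Monoid S] [Countable S]

/-- the type of a point -/
noncomputable def tp (x : XS S) (m : ℕ) : TY S :=
  (fun a b => decide (x.1 a m = x.1 b m), fun i a => x.2 i (x.1 a m))

theorem tp_iso {x y : XS S} {σ : Equiv.Perm ℕ} (h : SIso σ x y) (m : ℕ) :
    tp y (σ m) = tp x m := by
  refine Prod.ext (funext fun a => funext fun b => ?_) (funext fun i => funext fun a => ?_)
  · exact decide_eq_decide.2 (by rw [h.1, h.1, σ.apply_eq_iff_eq])
  · show y.2 i (y.1 a (σ m)) = x.2 i (x.1 a m)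
    rw [h.1, h.2]

theorem meas_tp (m : ℕ) : Measurable fun x : XS S => tp x m := by
  have m1 : ∀ a : S, Measurable fun x : XS S => x.1 a m := fun a =>
    (measurable_pi_apply m).comp ((measurable_pi_apply a).comp measurable_fst)
  refine Measurable.prodMk (measurable_pi_iff.2 fun a => measurable_pi_iff.2 fun b => ?_)
    (measurable_pi_iff.2 fun i => measurable_pi_iff.2 fun a => ?_)
  · refine measurable_to_bool ?_
    have e : (fun x : XS S => (tp x m).1 a b) ⁻¹' {true} = {x : XS S | x.1 a m = x.1 b m} := by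
      ext x
      simp [tp]
    exact (congrArg MeasurableSet e).mpr (measurableSet_eq_fun (m1 a) (m1 b))
  · refine measurable_to_bool ?_
    have e : (fun x : XS S => (tp x m).2 i a) ⁻¹' {true} =
        ⋃ k : ℕ, ({x : XS S | x.1 a m = k} ∩ {x : XS S | x.2 i k = true}) := by
      ext x
      simp [tp]
    refine (congrArg MeasurableSet e).mpr (MeasurableSet.iUnion fun k => ?_)
    refine ((m1 a) (measurableSet_singleton k)).inter ?_
    have h2 : Measurable fun x : XS S => x.2 i k :=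
      (measurable_pi_apply k).comp ((measurable_pi_apply i).comp measurable_snd)
    exact h2 (measurableSet_singleton true)

/-- acts with chains as one-generated subacts -/
structure CA (x : XS S) : Prop where
  one : ∀ m, x.1 1 m = m
  mul : ∀ s t m, x.1 (s * t) m = x.1 s (x.1 t m)
  ch : ∀ s t m, ∃ q, x.1 t m = x.1 q (x.1 s m) ∨ x.1 s m = x.1 q (x.1 t m)

theorem tp_sh {x : XS S} (h : CA x) (m : ℕ) (t : S) : tp x (x.1 t m) = sh t (tp x m) := by
  refine Prod.ext (funext fun a => funext fun b => ?_) (funext fun i => funext fun a => ?_)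
  · show decide (x.1 a (x.1 t m) = x.1 b (x.1 t m)) =
      decide (x.1 (a * t) m = x.1 (b * t) m)
    rw [h.mul, h.mul]
  · show x.2 i (x.1 a (x.1 t m)) = x.2 i (x.1 (a * t) m)
    rw [h.mul]

theorem tp_eq (x : XS S) (m : ℕ) (a b : S) : (tp x m).1 a b = true ↔ x.1 a m = x.1 b m := by
  show decide _ = true ↔ _
  rw [decide_eq_true_iff]

/-- the types of the points of the members of `B` -/
def TB (B : Set (XS S)) : Set (TY S) := {c | ∃ x ∈ B, ∃ m, tp x m = c}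

theorem jj_TB {B : Set (XS S)} (hB : ∀ x ∈ B, CA x) : JJ (TB B) := by
  refine ⟨?_, ?_, ?_, ?_, ?_, ?_⟩
  · rintro _ ⟨x, hx, m, rfl⟩ a
    rw [tp_eq]
  · rintro _ ⟨x, hx, m, rfl⟩ a b h
    rw [tp_eq] at h ⊢
    exact h.symm
  · rintro _ ⟨x, hx, m, rfl⟩ a b d h h'
    rw [tp_eq] at h h' ⊢
    exact h.trans h'
  · rintro _ ⟨x, hx, m, rfl⟩ a b s h
    rw [tp_eq] at h ⊢
    rw [(hB x hx).mul, (hB x hx).mul, h]
  · rintro _ ⟨x, hx, m, rfl⟩ a b i h
    rw [tp_eq] at h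
    show x.2 i (x.1 a m) = x.2 i (x.1 b m)
    rw [h]
  · rintro _ ⟨x, hx, m, rfl⟩ t
    exact ⟨x, hx, x.1 t m, tp_sh (hB x hx) m t⟩

section

variable {J : Set (TY S)} [Countable J] {hJ : JJ J} {Γ : Type} [Group Γ] [Countable Γ] {O : Type}
  (F : FR J hJ Γ O) (en : J → ℕ)

/-- well formed structures -/
def W (Z : XG Γ) : Prop := WZ F en (lZ Z) (fun γ m => Z.2.1 γ m) (cZ Z)

/-- the main points of `Z` -/
abbrev pZ (Z : XG Γ) (u : ℕ) : Prop := PP (J := J) en (cZ Z) u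

theorem bp_col (c : J) (u : ℕ) : BP (fun Z : XG Γ => col en (cZ Z) c u) := bp_cZ _ _

theorem bp_pZ (u : ℕ) : BP (fun Z : XG Γ => pZ (J := J) en Z u) := BP.ex fun c => bp_col en c u

theorem bp_gr (t : S) (u v : ℕ) :
    BP (fun Z : XG Γ => Gr F en (lZ Z) (fun γ m => Z.2.1 γ m) (cZ Z) t u v) := by
  have h : BP (fun Z : XG Γ => ∃ (c : J) (k : ℕ), col en (cZ Z) c u ∧
      col en (cZ Z) (sJ hJ t c) v ∧ Z.2.1 (F.gn c t)⁻¹ v = k ∧ (lZ Z k u ∨ k = u)) :=
    BP.ex fun c => BP.ex fun k => (bp_col en _ _).and <| (bp_col en _ _).and <|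
      (bp_aZ _ _ _).and ((bp_lZ _ _).or (BP.const _))
  refine h.congr fun Z => ⟨?_, ?_⟩
  · rintro ⟨c, k, h1, h2, rfl, h3⟩
    exact ⟨c, h1, h2, h3⟩
  · rintro ⟨c, h1, h2, h3⟩
    exact ⟨c, _, h1, h2, rfl, h3⟩

theorem bp_W : BP (fun Z : XG Γ => W F en Z) := by
  have : BP (fun Z : XG Γ => (∀ m, ¬ lZ Z m m) ∧ (∀ m n k, lZ Z m n → lZ Z n k → lZ Z m k) ∧
      (∀ m n k, lZ Z m k → lZ Z n k → m = n ∨ lZ Z m n ∨ lZ Z n m) ∧
      (∀ m, Z.2.1 1 m = m) ∧
      (∀ (γ δ : Γ) (m k l : ℕ), Z.2.1 δ m = k → Z.2.1 γ k = l → Z.2.1 (γ * δ) m = l) ∧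
      (∀ (γ : Γ) (m n k l : ℕ), Z.2.1 γ m = k → Z.2.1 γ n = l → lZ Z m n → lZ Z k l) ∧
      (∀ N, ∃ u, N ≤ u ∧ pZ (J := J) en Z u) ∧
      (∀ z, ∃ (γ : Γ) (p : ℕ), pZ (J := J) en Z p ∧ Z.2.1 γ p = z) ∧
      (∀ (c c' : J) (u : ℕ), col en (cZ Z) c u → col en (cZ Z) c' u → c = c') ∧
      (∀ (i z : ℕ), cZ Z i z → ∃ c : J, en c = i) ∧
      (∀ (γ : Γ) (p q : ℕ) (c c' : J), Z.2.1 γ p = q → col en (cZ Z) c p →
        col en (cZ Z) c' q → ∃ t, c' = sJ hJ t c ∧ Lab F c t γ) ∧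
      (∀ (c : J) (p : ℕ) (g : Γ), Lab F c 1 g → col en (cZ Z) c p → Z.2.1 g p = p) ∧
      (∀ (γ : Γ) (p q k : ℕ) (c c' : J), Z.2.1 γ q = k → col en (cZ Z) c p →
        col en (cZ Z) c' q → lZ Z k p →
        (∃ t, c' = sJ hJ t c ∧ Lab F c t γ⁻¹) ∧ ¬ ∃ t, c = sJ hJ t c' ∧ Lab F c' t γ) ∧
      (∀ (c : J) (t : S) (g : Γ) (p : ℕ), Lab F c t g → col en (cZ Z) c p →
        ∃ q k, col en (cZ Z) (sJ hJ t c) q ∧ Z.2.1 g⁻¹ q = k ∧ (lZ Z k p ∨ k = p))) :=
    (BP.all fun m => (bp_lZ m m).not).and <|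
    (BP.all fun m => BP.all fun n => BP.all fun k => (bp_lZ _ _).imp <| (bp_lZ _ _).imp
      (bp_lZ _ _)).and <|
    (BP.all fun m => BP.all fun n => BP.all fun k => (bp_lZ _ _).imp <| (bp_lZ _ _).imp <|
      (BP.const _).or ((bp_lZ _ _).or (bp_lZ _ _))).and <|
    (BP.all fun m => bp_aZ 1 m m).and <|
    (BP.all fun γ => BP.all fun δ => BP.all fun m => BP.all fun k => BP.all fun l =>
      (bp_aZ _ _ _).imp <| (bp_aZ _ _ _).imp (bp_aZ _ _ _)).and <|
    (BP.all fun γ => BP.all fun m => BP.all fun n => BP.all fun k => BP.all fun l =>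
      (bp_aZ _ _ _).imp <| (bp_aZ _ _ _).imp <| (bp_lZ _ _).imp (bp_lZ _ _)).and <|
    (BP.all fun N => BP.ex fun u => (BP.const _).and (bp_pZ en u)).and <|
    (BP.all fun z => BP.ex fun γ => BP.ex fun p => (bp_pZ en p).and (bp_aZ _ _ _)).and <|
    (BP.all fun c => BP.all fun c' => BP.all fun u => (bp_col en _ _).imp <|
      (bp_col en _ _).imp (BP.const _)).and <|
    (BP.all fun i => BP.all fun z => (bp_cZ _ _).imp (BP.const _)).and <|
    (BP.all fun γ => BP.all fun p => BP.all fun q => BP.all fun c => BP.all fun c' =>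
      (bp_aZ _ _ _).imp <| (bp_col en _ _).imp <| (bp_col en _ _).imp (BP.const _)).and <|
    (BP.all fun c => BP.all fun p => BP.all fun g => (BP.const _).imp <| (bp_col en _ _).imp <|
      bp_aZ _ _ _).and <|
    (BP.all fun γ => BP.all fun p => BP.all fun q => BP.all fun k => BP.all fun c =>
      BP.all fun c' => (bp_aZ _ _ _).imp <| (bp_col en _ _).imp <| (bp_col en _ _).imp <|
      (bp_lZ _ _).imp (BP.const _)).and <|
    BP.all fun c => BP.all fun t => BP.all fun g => BP.all fun p => (BP.const _).imp <|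
      (bp_col en _ _).imp <| BP.ex fun q => BP.ex fun k => (bp_col en _ _).and <|
      (bp_aZ _ _ _).and ((bp_lZ _ _).or (BP.const _))
  refine this.congr fun Z => ⟨?_, ?_⟩
  · rintro ⟨h1, h2, h3, h4, h5, h6, h7, h8, h9, h10, h11, h12, h13, h14⟩
    refine ⟨h1, h2, h3, h4, fun γ δ m => h5 γ δ m _ _ rfl rfl, fun γ m n => h6 γ m n _ _ rfl rfl,
      inf_iff'.2 h7, h8, h9, h10, fun γ p c c' => h11 γ p _ c c' rfl,
      h12, fun γ p q c c' => h13 γ p q _ c c' rfl, fun c t g p g1 g2 => ?_⟩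
    obtain ⟨q, k, g4, g5, g6⟩ := h14 c t g p g1 g2
    subst g5
    exact ⟨q, g4, g6⟩
  · intro h
    refine ⟨h.irr, h.tr, h.sem, h.one, ?_, ?_, inf_iff'.1 h.inf, h.cov, h.cun, h.oth, ?_, h.fix,
      ?_, fun c t g p g1 g2 => ?_⟩
    · rintro γ δ m k l rfl rfl
      exact h.mul γ δ m
    · rintro γ m n k l rfl rfl
      exact h.mono γ m n
    · rintro γ p q c c' rfl
      exact h.un γ p c c'
    · rintro γ p q k c c' rfl
      exact h.ord γ p q c c'
    · obtain ⟨q, g4, g5⟩ := h.fn c t g p g1 g2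
      exact ⟨q, _, g4, rfl, g5⟩

open Classical in
/-- decoding -/
noncomputable def DD (Z : XG Γ) : XS S :=
  (fun t m => sInf {n | Ind (pZ (J := J) en Z)
      (Gr F en (lZ Z) (fun γ m => Z.2.1 γ m) (cZ Z) t) m n},
    fun i m => decide (∃ u, Nth (pZ (J := J) en Z) m u ∧
      ∃ c : J, col en (cZ Z) c u ∧ c.1.2 i 1 = true))

theorem meas_DD : Measurable (DD F en) := by
  refine Measurable.prodMk ?_ ?_
  · refine measurable_pi_iff.2 fun s => measurable_pi_iff.2 fun m => ?_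
    refine measurable_to_countable' fun n => ?_
    have bI : ∀ k, BP (fun Z : XG Γ => Ind (pZ (J := J) en Z)
        (Gr F en (lZ Z) (fun γ m => Z.2.1 γ m) (cZ Z) s) m k) := fun k =>
      bp_ind (P := fun Z : XG Γ => pZ (J := J) en Z)
        (A := fun Z : XG Γ => Gr F en (lZ Z) (fun γ m => Z.2.1 γ m) (cZ Z) s)
        (fun u => bp_pZ en u) (fun u v => bp_gr F en _ u v) m k
    have : BP (fun Z : XG Γ =>
        (Ind (pZ (J := J) en Z) (Gr F en (lZ Z) (fun γ m => Z.2.1 γ m) (cZ Z) s) m n ∧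
          ∀ k, k < n → ¬ Ind (pZ (J := J) en Z)
            (Gr F en (lZ Z) (fun γ m => Z.2.1 γ m) (cZ Z) s) m k) ∨
        (n = 0 ∧ ∀ k, ¬ Ind (pZ (J := J) en Z)
          (Gr F en (lZ Z) (fun γ m => Z.2.1 γ m) (cZ Z) s) m k)) :=
      ((bI n).and (BP.all fun k => (BP.const _).imp (bI k).not)).or
        ((BP.const _).and (BP.all fun k => (bI k).not))
    refine (congrArg MeasurableSet (Set.ext fun Z => ?_)).mp this
    show _ ↔ sInf {n | Ind (pZ (J := J) en Z)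
      (Gr F en (lZ Z) (fun γ m => Z.2.1 γ m) (cZ Z) s) m n} = n
    constructor
    · rintro (⟨h1, h2⟩ | ⟨h1, h2⟩)
      · apply le_antisymm (Nat.sInf_le h1)
        by_contra h3
        exact h2 _ (not_le.1 h3) (Nat.sInf_mem (s := {n | Ind (pZ (J := J) en Z)
          (Gr F en (lZ Z) (fun γ m => Z.2.1 γ m) (cZ Z) s) m n}) ⟨n, h1⟩)
      · have h3 : {n | Ind (pZ (J := J) en Z)
            (Gr F en (lZ Z) (fun γ m => Z.2.1 γ m) (cZ Z) s) m n} = ∅ := by
          ext k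
          simpa using h2 k
        rw [h3, Nat.sInf_empty, h1]
    · intro h1
      by_cases h2 : ∃ k, Ind (pZ (J := J) en Z)
          (Gr F en (lZ Z) (fun γ m => Z.2.1 γ m) (cZ Z) s) m k
      · left
        have h3 := Nat.sInf_mem (s := {n | Ind (pZ (J := J) en Z)
          (Gr F en (lZ Z) (fun γ m => Z.2.1 γ m) (cZ Z) s) m n}) h2
        rw [h1] at h3
        refine ⟨h3, fun k hk h4 => ?_⟩
        have := Nat.sInf_le (s := {n | Ind (pZ (J := J) en Z)
          (Gr F en (lZ Z) (fun γ m => Z.2.1 γ m) (cZ Z) s) m n}) h4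
        rw [h1] at this
        omega
      · right
        push Not at h2
        refine ⟨?_, h2⟩
        have h3 : {n | Ind (pZ (J := J) en Z)
            (Gr F en (lZ Z) (fun γ m => Z.2.1 γ m) (cZ Z) s) m n} = ∅ := by
          ext k
          simpa using h2 k
        rw [h3, Nat.sInf_empty] at h1
        exact h1.symm
  · refine measurable_pi_iff.2 fun i => measurable_pi_iff.2 fun m => ?_
    refine measurable_to_bool ?_
    have : BP (fun Z : XG Γ => ∃ u, Nth (pZ (J := J) en Z) m u ∧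
        ∃ c : J, col en (cZ Z) c u ∧ c.1.2 i 1 = true) :=
      BP.ex fun u => (bp_nth (P := fun Z : XG Γ => pZ (J := J) en Z)
        (fun u => bp_pZ en u) m u).and (BP.ex fun c => (bp_col en _ _).and (BP.const _))
    refine (congrArg MeasurableSet (Set.ext fun Z => ?_)).mp this
    simp [DD]

/-- the types are right -/
def CC (Z : XG Γ) : Prop := ∀ (m u : ℕ) (c : J), Nth (pZ (J := J) en Z) m u →
  col en (cZ Z) c u → tp (DD F en Z) m = c.1

theorem bp_CC : BP (fun Z : XG Γ => CC F en Z) := by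
  refine BP.all fun m => BP.all fun u => BP.all fun c => (bp_nth
    (P := fun Z : XG Γ => pZ (J := J) en Z) (fun u => bp_pZ en u) m u).imp <|
      (bp_col en _ _).imp ?_
  exact ((meas_tp m).comp (meas_DD F en)) (measurableSet_singleton c.1)

variable {F en}

theorem dd1 {Z : XG Γ} (w : W F en Z) {e : ℕ ≃ {u // pZ (J := J) en Z u}}
    (he : ∀ n u, Nth (pZ (J := J) en Z) n u ↔ (e n : ℕ) = u) (s : S) (m n : ℕ) :
    (DD F en Z).1 s m = n ↔ Gr F en (lZ Z) (fun γ m => Z.2.1 γ m) (cZ Z) s (e m) (e n) := by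
  have h0 : {n | Ind (pZ (J := J) en Z) (Gr F en (lZ Z) (fun γ m => Z.2.1 γ m) (cZ Z) s) m n} =
      {n | Gr F en (lZ Z) (fun γ m => Z.2.1 γ m) (cZ Z) s (e m) (e n)} := by
    ext n
    exact ind_iff he m n
  have h1 : (DD F en Z).1 s m =
      sInf {n | Gr F en (lZ Z) (fun γ m => Z.2.1 γ m) (cZ Z) s (e m) (e n)} := by
    rw [← h0]
    rfl
  obtain ⟨v, hv, h2⟩ := w.gr_ex s (e m).2
  obtain ⟨k, hk⟩ := e.surjective ⟨v, hv⟩
  have h3 : Gr F en (lZ Z) (fun γ m => Z.2.1 γ m) (cZ Z) s (e m) (e k) := by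
    rw [hk]
    exact h2
  have h4 : Gr F en (lZ Z) (fun γ m => Z.2.1 γ m) (cZ Z) s (e m)
      (e (sInf {n | Gr F en (lZ Z) (fun γ m => Z.2.1 γ m) (cZ Z) s (e m) (e n)})) :=
    Nat.sInf_mem (s := {n | Gr F en (lZ Z) (fun γ m => Z.2.1 γ m) (cZ Z) s (e m) (e n)})
      ⟨k, h3⟩
  rw [h1]
  constructor
  · rintro rfl
    exact h4
  · intro h5
    exact e.injective (Subtype.ext (w.gr_un h4 h5))

theorem dd2 {Z : XG Γ} {e : ℕ ≃ {u // pZ (J := J) en Z u}}
    (he : ∀ n u, Nth (pZ (J := J) en Z) n u ↔ (e n : ℕ) = u) (i m : ℕ) :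
    (DD F en Z).2 i m = true ↔ ∃ c : J, col en (cZ Z) c (e m) ∧ c.1.2 i 1 = true := by
  have : (DD F en Z).2 i m = true ↔ ∃ u, Nth (pZ (J := J) en Z) m u ∧
      ∃ c : J, col en (cZ Z) c u ∧ c.1.2 i 1 = true := by
    simp [DD]
  rw [this]
  constructor
  · rintro ⟨u, h1, h2⟩
    rw [(he m u).1 h1]
    exact h2
  · intro h1
    exact ⟨_, (he m _).2 rfl, h1⟩

theorem dd_iso1 {Z Z' : XG Γ} (w : W F en Z) (w' : W F en Z') (hc : CC F en Z)
    (hc' : CC F en Z') (h : ∃ σ, SIso σ (DD F en Z) (DD F en Z')) : ∃ σ, Isom σ Z Z' := by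
  obtain ⟨e, he⟩ := nth_equiv (inf_iff'.1 w.inf)
  obtain ⟨e', he'⟩ := nth_equiv (inf_iff'.1 w'.inf)
  obtain ⟨τ, h1, h2⟩ := h
  have c : ∀ u : {u // pZ (J := J) en Z u}, e (e.symm u) = u := fun u => e.apply_symm_apply u
  have hcol : ∀ (d : J) m, col en (cZ Z) d (e m) ↔ col en (cZ Z') d (e' (τ m)) := by
    intro d m
    have ht := tp_iso (⟨h1, h2⟩ : SIso τ (DD F en Z) (DD F en Z')) m
    constructor
    · intro h3
      have h4 := hc m _ d ((he m _).2 rfl) h3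
      obtain ⟨d', h5⟩ := (e' (τ m)).2
      have h6 := hc' (τ m) _ d' ((he' _ _).2 rfl) h5
      have h7 : d = d' := Subtype.ext (by rw [← h4, ← h6, ht])
      rw [h7]
      exact h5
    · intro h3
      have h4 := hc' (τ m) _ d ((he' _ _).2 rfl) h3
      obtain ⟨d', h5⟩ := (e m).2
      have h6 := hc m _ d' ((he _ _).2 rfl) h5
      have h7 : d = d' := Subtype.ext (by rw [← h4, ← h6, ht])
      rw [h7]
      exact h5
  obtain ⟨σ, h3, h4, h5⟩ := zlift w w' ((e.symm.trans τ).trans e') (fun d u => by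
    show _ ↔ col _ _ d (e' (τ (e.symm u)) : ℕ)
    rw [← hcol, c]) (fun s u v => by
    show _ ↔ Gr F en _ _ _ s (e' (τ (e.symm u)) : ℕ) (e' (τ (e.symm v)) : ℕ)
    rw [← dd1 w' he', h1, τ.apply_eq_iff_eq, dd1 w he, c, c])
  refine ⟨σ, fun m n => ?_, h4, fun i m => ?_⟩
  · rw [Bool.eq_iff_iff]
    exact h3 m n
  · rw [Bool.eq_iff_iff]
    exact h5 i m

theorem dd_iso2 {Z Z' : XG Γ} (w : W F en Z) (w' : W F en Z') (h : ∃ σ, Isom σ Z Z') :
    ∃ σ, SIso σ (DD F en Z) (DD F en Z') := by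
  obtain ⟨e, he⟩ := nth_equiv (inf_iff'.1 w.inf)
  obtain ⟨e', he'⟩ := nth_equiv (inf_iff'.1 w'.inf)
  obtain ⟨σ, h1, h2, h3⟩ := h
  have g1 : ∀ m n, lZ Z' (σ m) (σ n) ↔ lZ Z m n := fun m n => by
    unfold lZ
    rw [h1]
  have g3 : ∀ i m, cZ Z' i (σ m) ↔ cZ Z i m := fun i m => by
    unfold cZ
    rw [h3]
  have g4 : ∀ u, pZ (J := J) en Z u ↔ pZ (J := J) en Z' (σ u) := fun u =>
    exists_congr fun c => (g3 _ u).symm
  let π : {u // pZ (J := J) en Z u} ≃ {u // pZ (J := J) en Z' u} := σ.subtypeEquiv g4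
  have hπ : ∀ u, ((π u : {u // pZ (J := J) en Z' u}) : ℕ) = σ u := fun u => rfl
  let τ : Equiv.Perm ℕ := (e.trans π).trans e'.symm
  have hτ : ∀ m, e' (τ m) = π (e m) := fun m => by
    show e' (e'.symm (π (e m))) = _
    rw [e'.apply_symm_apply]
  refine ⟨τ, fun s m => ?_, fun i m => ?_⟩
  · rw [dd1 w' he', hτ, hτ, hπ, hπ, gr_map g1 h2 g3]
    exact (dd1 w he s m _).1 rfl
  · rw [Bool.eq_iff_iff, dd2 he', dd2 he, hτ, hπ]
    exact exists_congr fun c => and_congr_left fun _ => g3 _ _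

/-- every act is decoded from some order -/
theorem dd_ex (hen : Function.Injective en) (x : XS S) (hx : CA x) (hxJ : ∀ m, tp x m ∈ J) :
    ∃ Z : XG Γ, W F en Z ∧ CC F en Z ∧ ∃ σ, SIso σ (DD F en Z) x := by
  classical
  let c : ℕ → J := fun m => ⟨tp x m, hxJ m⟩
  have h : LW hJ x.1 c := ⟨hx.one, hx.mul, hx.ch, fun m a b => tp_eq x m a b,
    fun m t => Subtype.ext (tp_sh hx m t)⟩
  have wq := wz_zq (F := F) en h hen
  have hct : Countable (ZQ F h) := Quotient.countable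
  have hi : Infinite (ZQ F h) := by
    have := wq.inf
    exact Infinite.of_injective
      (fun u : {u // PP (J := J) en (zc F en h) u} => u.1) Subtype.val_injective
  obtain ⟨σ⟩ : Nonempty (ZQ F h ≃ ℕ) := nonempty_equiv_of_countable
  let Z : XG Γ := (fun u v => decide (zl F h (σ.symm u) (σ.symm v)),
    fun γ m => σ (za F h γ (σ.symm m)), fun i m => decide (zc F en h i (σ.symm m)))
  have g1 : ∀ m n, lZ Z (σ m) (σ n) ↔ zl F h m n := fun m n => by
    simp [lZ, Z]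
  have g2 : ∀ γ m, Z.2.1 γ (σ m) = σ (za F h γ m) := fun γ m => by
    simp [Z]
  have g3 : ∀ i m, cZ Z i (σ m) ↔ zc F en h i m := fun i m => by
    simp [cZ, Z]
  have w : W F en Z := wq.map g1 g2 g3
  obtain ⟨e, he⟩ := nth_equiv (inf_iff'.1 w.inf)
  have hcl : ∀ (d : J) m, col en (cZ Z) d (σ (zp F h (m, 1))) ↔ d = c m := by
    intro d m
    rw [col, g3]
    constructor
    · rintro ⟨n, h1, h2⟩
      rw [zp_one_inj h h1]
      exact hen h2
    · rintro rfl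
      exact ⟨m, rfl, rfl⟩
  have hV : ∀ m, pZ (J := J) en Z (σ (zp F h (m, 1))) := fun m => ⟨c m, (hcl _ _).2 rfl⟩
  have hb : Function.Bijective (fun m : ℕ =>
      (⟨σ (zp F h (m, 1)), hV m⟩ : {u // pZ (J := J) en Z u})) := by
    constructor
    · intro m n hmn
      exact zp_one_inj h (σ.injective (congrArg Subtype.val hmn))
    · rintro ⟨u, d, hu⟩
      obtain ⟨o, rfl⟩ := σ.surjective u
      obtain ⟨m, rfl, -⟩ := (g3 _ _).1 hu
      exact ⟨m, rfl⟩
  let β : ℕ ≃ {u // pZ (J := J) en Z u} := Equiv.ofBijective _ hb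
  have hβ : ∀ m, ((β m : {u // pZ (J := J) en Z u}) : ℕ) = σ (zp F h (m, 1)) := fun m => rfl
  let τ : Equiv.Perm ℕ := e.trans β.symm
  have hτ : ∀ m, e m = β (τ m) := fun m => by
    show e m = β (β.symm (e m))
    rw [β.apply_symm_apply]
  have hiso : SIso τ (DD F en Z) x := by
    refine ⟨fun s m => ?_, fun i m => ?_⟩
    · have h3 := (dd1 w he s m _).1 rfl
      rw [hτ, hτ, hβ, hβ, gr_map g1 g2 g3, gr_zq en h hen] at h3
      exact h3
    · rw [Bool.eq_iff_iff, dd2 he, hτ, hβ]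
      constructor
      · intro h3
        refine ⟨c (τ m), (hcl _ _).2 rfl, ?_⟩
        show x.2 i (x.1 1 (τ m)) = true
        rw [hx.one]
        exact h3
      · rintro ⟨d, h3, h4⟩
        rw [hcl] at h3
        subst h3
        have h5 : x.2 i (x.1 1 (τ m)) = true := h4
        rwa [hx.one] at h5
  refine ⟨Z, w, ?_, τ, hiso⟩
  intro m u d h1 h2
  have h3 := (he m u).1 h1
  rw [← h3, hτ, hβ, hcl] at h2
  rw [h2, ← tp_iso hiso m]

end

/-- Vaught's conjecture for acts with chains as one-generated subacts. -/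
theorem vaught_ca (B : Set (XS S)) (hB : MeasurableSet B) (hA : ∀ x ∈ B, CA x)
    (hi : ∀ x ∈ B, ∀ (y : XS S) (σ : Equiv.Perm ℕ), SIso σ x y → y ∈ B) :
    (∃ f : ℕ → XS S, ∀ x ∈ B, ∃ (n : ℕ) (σ : Equiv.Perm ℕ), SIso σ (f n) x) ∨
    (∃ c : (ℕ → Bool) → XS S, Continuous c ∧ (∀ a, c a ∈ B) ∧
      ∀ a b, (∃ σ : Equiv.Perm ℕ, SIso σ (c a) (c b)) → a = b) := by
  classical
  by_cases hperf : ∃ c : (ℕ → Bool) → XS S, Continuous c ∧ (∀ a, c a ∈ B) ∧
      ∀ a b, (∃ σ : Equiv.Perm ℕ, SIso σ (c a) (c b)) → a = b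
  · exact Or.inr hperf
  left
  have b2 : BorelSpace (S → ℕ → ℕ) := inferInstance
  have b3 : BorelSpace (XS S) := Prod.borelSpace
  have b4 : BorelSpace (TY S) := Prod.borelSpace
  -- countably many types
  have hcount : (TB B).Countable := by
    have hS : StandardBorelSpace B := hB.standardBorel
    have hU : TB B = ⋃ i : ℕ, Set.range (fun Y : B => tp Y.1 i) := by
      ext c
      simp only [TB, Set.mem_ofPred_eq, Set.mem_iUnion, Set.mem_range, Subtype.exists]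
      constructor
      · rintro ⟨x, hx, m, h⟩
        exact ⟨m, x, hx, h⟩
      · rintro ⟨m, x, hx, h⟩
        exact ⟨x, hx, m, h⟩
    rw [hU]
    by_contra hunc
    obtain ⟨h, hcont, hh⟩ := Pool.Agent.H565R2.FO2.perfect_of_uncountable (Y := B) (X := XS S)
      (fun Y => Y.1) measurable_subtype_coe (fun (i : ℕ) (Y : B) => tp Y.1 i)
      (fun i => (meas_tp i).comp measurable_subtype_coe)
      (fun Y Y' => ∃ σ : Equiv.Perm ℕ, SIso σ Y.1 Y'.1)
      (fun Y Y' ⟨σ, hσ⟩ i => ⟨σ i, (tp_iso hσ i).symm⟩) hunc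
    apply hperf
    refine ⟨fun x => (h x).1, hcont, fun x => (h x).2, fun x y hxy => ?_⟩
    by_contra hne
    exact hh x y hne hxy
  have hJ : JJ (TB B) := jj_TB hA
  obtain ⟨Γ, _, _, O, ⟨F⟩⟩ := exists_frame (TB B) hJ hcount
  have hcJ : Countable (TB B) := hcount.to_subtype
  obtain ⟨en, hen⟩ := exists_injective_nat (TB B)
  -- the orders
  have ism : ∀ {Z Z' : XG Γ} {σ : Equiv.Perm ℕ}, Isom σ Z Z' → W F en Z → W F en Z' := by
    rintro Z Z' σ ⟨h1, h2, h3⟩ w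
    exact w.map (σ := σ) (fun m n => by unfold lZ; rw [h1]) h2 (fun i m => by unfold cZ; rw [h3])
  have isc : ∀ {Z Z' : XG Γ} {σ : Equiv.Perm ℕ}, Isom σ Z Z' → W F en Z → CC F en Z →
      CC F en Z' := by
    intro Z Z' σ h w hc
    have w' := ism h w
    obtain ⟨e, he⟩ := nth_equiv (inf_iff'.1 w.inf)
    obtain ⟨e', he'⟩ := nth_equiv (inf_iff'.1 w'.inf)
    obtain ⟨h1, h2, h3⟩ := h
    have g1 : ∀ m n, lZ Z' (σ m) (σ n) ↔ lZ Z m n := fun m n => by
      unfold lZ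
      rw [h1]
    have g3 : ∀ i m, cZ Z' i (σ m) ↔ cZ Z i m := fun i m => by
      unfold cZ
      rw [h3]
    have g4 : ∀ u, pZ (J := TB B) en Z u ↔ pZ (J := TB B) en Z' (σ u) := fun u =>
      exists_congr fun c => (g3 _ u).symm
    let π : {u // pZ (J := TB B) en Z u} ≃ {u // pZ (J := TB B) en Z' u} := σ.subtypeEquiv g4
    have hπ : ∀ u, ((π u : {u // pZ (J := TB B) en Z' u}) : ℕ) = σ u := fun u => rfl
    let τ : Equiv.Perm ℕ := (e.trans π).trans e'.symm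
    have hτ : ∀ m, e' (τ m) = π (e m) := fun m => by
      show e' (e'.symm (π (e m))) = _
      rw [e'.apply_symm_apply]
    have hiso : SIso τ (DD F en Z) (DD F en Z') := by
      refine ⟨fun s m => ?_, fun i m => ?_⟩
      · rw [dd1 w' he', hτ, hτ, hπ, hπ, gr_map g1 h2 g3]
        exact (dd1 w he s m _).1 rfl
      · rw [Bool.eq_iff_iff, dd2 he', dd2 he, hτ, hπ]
        exact exists_congr fun c => and_congr_left fun _ => g3 _ _
    intro m u d h4 h5
    have h6 := (he' m u).1 h4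
    obtain ⟨k, rfl⟩ := τ.surjective m
    rw [tp_iso hiso]
    refine hc k _ d ((he k _).2 rfl) ?_
    rw [← h6, hτ, hπ] at h5
    exact (g3 _ _).1 h5
  have hst : ∀ Z ∈ {Z : XG Γ | (W F en Z ∧ CC F en Z) ∧ DD F en Z ∈ B},
      ∀ (Z' : XG Γ) (σ : Equiv.Perm ℕ), Isom σ Z Z' →
      Z' ∈ {Z : XG Γ | (W F en Z ∧ CC F en Z) ∧ DD F en Z ∈ B} := by
    rintro Z ⟨⟨w, hc⟩, hZ⟩ Z' σ h
    have w' := ism h w
    obtain ⟨τ, hτ⟩ := dd_iso2 w w' ⟨σ, h⟩
    exact ⟨⟨w', isc h w hc⟩, hi _ hZ _ τ hτ⟩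
  rcases Pool.Agent.Y560.TF.out Γ {Z : XG Γ | (W F en Z ∧ CC F en Z) ∧ DD F en Z ∈ B}
      (MeasurableSet.inter (MeasurableSet.inter (bp_W F en) (bp_CC F en)) (meas_DD F en hB))
      (fun Z hZ => by
        have w := hZ.1.1
        refine ⟨fun m => ?_, w.tr, w.sem, w.one, w.mul, w.mono⟩
        exact Bool.eq_false_iff.2 (w.irr m)) hst with ⟨f, hf⟩ | ⟨c, h1, h2, h3⟩
  · refine ⟨fun n => DD F en (f n), fun x hx => ?_⟩
    obtain ⟨Z, w, hc, τ, hτ⟩ := dd_ex (F := F) hen x (hA x hx) (fun m => ⟨x, hx, m, rfl⟩)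
    have hZ : Z ∈ {Z : XG Γ | (W F en Z ∧ CC F en Z) ∧ DD F en Z ∈ B} :=
      ⟨⟨w, hc⟩, hi x hx _ _ hτ.symm⟩
    obtain ⟨n, σ, hσ⟩ := hf Z hZ
    have hs : Isom σ.symm Z (f n) := by
      obtain ⟨g1, g2, g3⟩ := hσ
      refine ⟨fun m k => ?_, fun γ m => ?_, fun i m => ?_⟩
      · obtain ⟨m, rfl⟩ := σ.surjective m
        obtain ⟨k, rfl⟩ := σ.surjective k
        rw [g1, σ.symm_apply_apply, σ.symm_apply_apply]
      · obtain ⟨m, rfl⟩ := σ.surjective m
        rw [g2, σ.symm_apply_apply, σ.symm_apply_apply]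
      · obtain ⟨m, rfl⟩ := σ.surjective m
        rw [g3, σ.symm_apply_apply]
    have wn := (hst Z hZ _ _ hs).1.1
    obtain ⟨ρ, hρ⟩ := dd_iso2 wn w ⟨σ, hσ⟩
    exact ⟨n, _, hρ.trans hτ⟩
  · exfalso
    apply hperf
    have b1 : BorelSpace (ℕ → ℕ → Bool) := inferInstance
    have b2 : BorelSpace (Γ → ℕ → ℕ) := inferInstance
    have b3 : BorelSpace ((Γ → ℕ → ℕ) × (ℕ → ℕ → Bool)) := Prod.borelSpace
    have b4 : BorelSpace (XG Γ) := Prod.borelSpace
    obtain ⟨h, h4, h5⟩ := cont_of_meas ((meas_DD F en).comp h1.measurable)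
    refine ⟨_, h5, fun a => (h2 _).2, fun a b hab => ?_⟩
    exact h4 (h3 _ _ (dd_iso1 (h2 _).1.1 (h2 _).1.1 (h2 _).1.2 (h2 _).1.2 hab))

end Pool.Agent.N649.KA
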