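import Pool.Agent.N649.KA.Pos
import Pool.Agent.H533R2.VS.All2
import Pool.Agent.TH425.FF.Cun
import Pool.Agent.TH425.FF.Par

set_option autoImplicit false
set_option linter.unusedSectionVars false

/-! Relational structures in which everything is reachable by named steps along chains. -/

namespace Pool.Agent.N649.KA

open Pool.Agent.W889.VC (BP cont_of_meas)
open Pool.Agent.Y561.AC (XS SIso SIso.symm SIso.trans)
open Pool.Agent.H533R2.VO (RS RIso VC Dich)
open Pool.Agent.H533R2.VS (US UIso UDich VCu Coan Inv act)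
open Pool.Agent.TH425.FF (PCanon PExp)
open MeasureTheory

/-- arities: the even ones of the structure, the odd ones for the steps -/
def bb (a : ℕ → ℕ) (i : ℕ) : ℕ := if i % 2 = 0 then a (i / 2) else 2

theorem bb0 (a : ℕ → ℕ) (j : ℕ) : bb a (2 * j) = a j := by
  unfold bb
  rw [if_pos (by omega), show 2 * j / 2 = j by omega]

theorem bb1 (a : ℕ → ℕ) (j : ℕ) : bb a (2 * j + 1) = 2 := by
  unfold bb
  rw [if_neg (by omega)]

variable {a : ℕ → ℕ}

/-- the `j`-th step relation -/
def dr (z : RS (bb a)) (j m n : ℕ) : Prop :=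
  z (2 * j + 1) (fun t => (![m, n] : Fin 2 → ℕ) (Fin.cast (bb1 a j) t)) = true

/-- `n` is the only successor of `m` -/
def nm (z : RS (bb a)) (j m n : ℕ) : Prop := dr z j m n ∧ ∀ n', dr z j m n' → n' = n

/-- reachable by named steps -/
def Rch (z : RS (bb a)) : ℕ → ℕ → Prop := Relation.ReflTransGen fun m n => ∃ j, nm z j m n

/-- the class -/
def KK (z : RS (bb a)) : Prop :=
  (∀ m u v, Rch z m u → Rch z m v → Rch z u v ∨ Rch z v u) ∧
  ∀ i v, z i v = true → ∃ m, ∀ t, Rch z m (v t)

open Classical in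
/-- the step function -/
noncomputable def sf (z : RS (bb a)) (j m : ℕ) : ℕ := if h : ∃ n, nm z j m n then h.choose else m

theorem sf_iff (z : RS (bb a)) (j m n : ℕ) :
    sf z j m = n ↔ nm z j m n ∨ (n = m ∧ ¬ ∃ k, nm z j m k) := by
  unfold sf
  split_ifs with h
  · constructor
    · rintro rfl
      exact Or.inl h.choose_spec
    · rintro (h1 | h1)
      · exact h1.2 _ h.choose_spec.1
      · exact absurd h h1.2
  · constructor
    · rintro rfl
      exact Or.inr ⟨rfl, h⟩
    · rintro (h1 | h1)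
      · exact absurd ⟨n, h1⟩ h
      · exact h1.1.symm

/-- words -/
noncomputable def wf (z : RS (bb a)) : FreeMonoid ℕ →* Function.End ℕ :=
  FreeMonoid.lift fun j => sf z j

theorem wf_one (z : RS (bb a)) (m : ℕ) : wf z 1 m = m := by
  rw [map_one]
  rfl

theorem wf_mul (z : RS (bb a)) (s t : FreeMonoid ℕ) (m : ℕ) :
    wf z (s * t) m = wf z s (wf z t m) := by
  rw [map_mul]
  rfl

theorem wf_of (z : RS (bb a)) (j m : ℕ) : wf z (FreeMonoid.of j) m = sf z j m := by
  show FreeMonoid.lift (fun j => (sf z j : Function.End ℕ)) (FreeMonoid.of j) m = _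
  rw [FreeMonoid.lift_eval_of]

theorem rch_sf (z : RS (bb a)) (j m : ℕ) : Rch z m (sf z j m) := by
  rcases (sf_iff z j m _).1 rfl with h | h
  · exact Relation.ReflTransGen.single ⟨j, h⟩
  · rw [h.1]
    exact Relation.ReflTransGen.refl

theorem rch_iff (z : RS (bb a)) (m n : ℕ) : Rch z m n ↔ ∃ w, wf z w m = n := by
  constructor
  · intro h
    induction h with
    | refl => exact ⟨1, wf_one z m⟩
    | tail h1 h2 ih =>
      obtain ⟨w, rfl⟩ := ih
      obtain ⟨j, hj⟩ := h2
      refine ⟨FreeMonoid.of j * w, ?_⟩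
      rw [wf_mul, wf_of]
      exact (sf_iff _ _ _ _).2 (Or.inl hj)
  · rintro ⟨w, rfl⟩
    induction w using FreeMonoid.recOn with
    | one => rw [wf_one]; exact Relation.ReflTransGen.refl
    | of_mul j w ih =>
      rw [wf_mul, wf_of]
      exact ih.trans (rch_sf z j _)

/-! ### Borel -/

section meas

variable {Y : Type} [MeasurableSpace Y] {f : Y → RS (bb a)}

theorem bp_rel (hf : Measurable f) (i : ℕ) (v : Fin (bb a i) → ℕ) :
    BP (fun y => f y i v = true) := by
  have h : Measurable fun y => f y i v :=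
    (measurable_pi_apply v).comp ((measurable_pi_apply i).comp hf)
  exact h (measurableSet_singleton true)

theorem bp_nm (hf : Measurable f) (j m n : ℕ) : BP (fun y => nm (f y) j m n) :=
  (bp_rel hf _ _).and (BP.all fun _ => (bp_rel hf _ _).imp (BP.const _))

theorem bp_sf (hf : Measurable f) (j m n : ℕ) : BP (fun y => sf (f y) j m = n) := by
  have h : BP (fun y => nm (f y) j m n ∨ (n = m ∧ ¬ ∃ k, nm (f y) j m k)) :=
    (bp_nm hf _ _ _).or ((BP.const _).and (BP.ex fun k => bp_nm hf _ _ _).not)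
  exact h.congr fun y => (sf_iff _ _ _ _).symm

theorem bp_wf (hf : Measurable f) (w : FreeMonoid ℕ) (m : ℕ) :
    ∀ n, BP (fun y => wf (f y) w m = n) := by
  induction w using FreeMonoid.recOn with
  | one =>
    intro n
    exact (BP.const (m = n)).congr fun y => by rw [wf_one]
  | of_mul j w ih =>
    intro n
    have h : BP (fun y => ∃ k, wf (f y) w m = k ∧ sf (f y) j k = n) :=
      BP.ex fun k => (ih k).and (bp_sf hf j k n)
    refine h.congr fun y => ?_
    rw [wf_mul, wf_of]
    constructor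
    · rintro ⟨k, rfl, h1⟩
      exact h1
    · intro h1
      exact ⟨_, rfl, h1⟩

theorem bp_rch (hf : Measurable f) (m n : ℕ) : BP (fun y => Rch (f y) m n) :=
  (BP.ex fun w => bp_wf hf w m n).congr fun y => (rch_iff _ _ _).symm

theorem bp_KK (hf : Measurable f) : BP (fun y => KK (f y)) :=
  (BP.all fun m => BP.all fun u => BP.all fun v => (bp_rch hf m u).imp <|
    (bp_rch hf m v).imp ((bp_rch hf u v).or (bp_rch hf v u))).and <|
  BP.all fun i => BP.all fun v => (bp_rel hf i v).imp <| BP.ex fun m => BP.all fun t =>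
    bp_rch hf m (v t)

end meas

/-! ### Coding by acts -/

/-- the unary predicates of the code -/
abbrev IX (a : ℕ → ℕ) : Type := (Σ i : ℕ, (Fin (bb a i) → FreeMonoid ℕ)) ⊕ ℕ

/-- the values of the predicates -/
noncomputable def pv (y : US (bb a)) (m : ℕ) : IX a → Bool
  | Sum.inl ⟨i, w⟩ => y.1 i fun t => wf y.1 (w t) m
  | Sum.inr k => y.2 k m

variable (e : ℕ → IX a)

/-- the code -/
noncomputable def En (y : US (bb a)) : XS (FreeMonoid ℕ) :=
  (fun w m => wf y.1 w m, fun i m => pv y m (e i))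

open Classical in
/-- the way back -/
noncomputable def De (x : XS (FreeMonoid ℕ)) : US (bb a) :=
  (fun i v => decide (∃ (m k : ℕ) (w : Fin (bb a i) → FreeMonoid ℕ), e k = Sum.inl ⟨i, w⟩ ∧
      (∀ t, x.1 (w t) m = v t) ∧ x.2 k m = true),
    fun k m => decide (∃ l, e l = Sum.inr k ∧ x.2 l m = true))

variable {e}

theorem de1 (x : XS (FreeMonoid ℕ)) (i : ℕ) (v : Fin (bb a i) → ℕ) :
    (De e x).1 i v = true ↔ ∃ (m k : ℕ) (w : Fin (bb a i) → FreeMonoid ℕ),
      e k = Sum.inl ⟨i, w⟩ ∧ (∀ t, x.1 (w t) m = v t) ∧ x.2 k m = true := by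
  classical
  unfold De
  rw [decide_eq_true_iff]

theorem de2 (x : XS (FreeMonoid ℕ)) (k m : ℕ) :
    (De e x).2 k m = true ↔ ∃ l, e l = Sum.inr k ∧ x.2 l m = true := by
  classical
  unfold De
  rw [decide_eq_true_iff]

theorem de_en (he : Function.Surjective e) {y : US (bb a)} (hy : KK y.1) : De e (En e y) = y := by
  refine Prod.ext (funext fun i => funext fun v => ?_) (funext fun k => funext fun m => ?_)
  · rw [Bool.eq_iff_iff, de1]
    constructor
    · rintro ⟨m, k, w, h1, h2, h3⟩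
      have h4 : pv y m (e k) = true := h3
      rw [h1] at h4
      have h5 : (fun t => wf y.1 (w t) m) = v := funext h2
      have h6 : y.1 i (fun t => wf y.1 (w t) m) = true := h4
      rwa [h5] at h6
    · intro h
      obtain ⟨m, hm⟩ := hy.2 i v h
      have h1 : ∀ t, ∃ w, wf y.1 w m = v t := fun t => (rch_iff _ _ _).1 (hm t)
      choose w hw using h1
      obtain ⟨k, hk⟩ := he (Sum.inl ⟨i, w⟩)
      refine ⟨m, k, w, hk, hw, ?_⟩
      show pv y m (e k) = true
      rw [hk]
      show y.1 i (fun t => wf y.1 (w t) m) = true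
      rw [show (fun t => wf y.1 (w t) m) = v from funext hw]
      exact h
  · rw [Bool.eq_iff_iff, de2]
    constructor
    · rintro ⟨l, h1, h2⟩
      have h3 : pv y m (e l) = true := h2
      rw [h1] at h3
      exact h3
    · intro h
      obtain ⟨l, hl⟩ := he (Sum.inr k)
      refine ⟨l, hl, ?_⟩
      show pv y m (e l) = true
      rw [hl]
      exact h

theorem ca_en {y : US (bb a)} (hy : KK y.1) : CA (En e y) := by
  refine ⟨fun m => wf_one y.1 m, fun s t m => wf_mul y.1 s t m, fun s t m => ?_⟩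
  rcases hy.1 m (wf y.1 s m) (wf y.1 t m) ((rch_iff _ _ _).2 ⟨s, rfl⟩)
    ((rch_iff _ _ _).2 ⟨t, rfl⟩) with h | h
  · obtain ⟨q, hq⟩ := (rch_iff _ _ _).1 h
    exact ⟨q, Or.inl hq.symm⟩
  · obtain ⟨q, hq⟩ := (rch_iff _ _ _).1 h
    exact ⟨q, Or.inr hq.symm⟩

section iso

variable {y y' : US (bb a)} {σ : Equiv.Perm ℕ}

theorem dr_iso (h : ∀ (i : ℕ) (v : Fin (bb a i) → ℕ), y'.1 i (⇑σ ∘ v) = y.1 i v) (j m n : ℕ) :
    dr y'.1 j (σ m) (σ n) ↔ dr y.1 j m n := by
  unfold dr
  rw [← h]
  have e1 : (fun t => (![σ m, σ n] : Fin 2 → ℕ) (Fin.cast (bb1 a j) t)) =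
      ⇑σ ∘ fun t => (![m, n] : Fin 2 → ℕ) (Fin.cast (bb1 a j) t) := by
    funext t
    simp only [Function.comp_apply]
    generalize Fin.cast (bb1 a j) t = u
    fin_cases u <;> rfl
  rw [e1]

theorem nm_iso (h : ∀ (i : ℕ) (v : Fin (bb a i) → ℕ), y'.1 i (⇑σ ∘ v) = y.1 i v) (j m n : ℕ) :
    nm y'.1 j (σ m) (σ n) ↔ nm y.1 j m n := by
  unfold nm
  rw [dr_iso h]
  refine and_congr_right fun _ => ?_
  constructor
  · intro h1 n' h2
    exact σ.injective (h1 (σ n') ((dr_iso h _ _ _).2 h2))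
  · intro h1 n' h2
    obtain ⟨n', rfl⟩ := σ.surjective n'
    rw [h1 n' ((dr_iso h _ _ _).1 h2)]

theorem sf_iso (h : ∀ (i : ℕ) (v : Fin (bb a i) → ℕ), y'.1 i (⇑σ ∘ v) = y.1 i v) (j m : ℕ) :
    sf y'.1 j (σ m) = σ (sf y.1 j m) := by
  rw [sf_iff]
  rcases (sf_iff y.1 j m _).1 rfl with h1 | h1
  · exact Or.inl ((nm_iso h _ _ _).2 h1)
  · refine Or.inr ⟨by rw [h1.1], ?_⟩
    rintro ⟨k, hk⟩
    obtain ⟨k, rfl⟩ := σ.surjective k
    exact h1.2 ⟨k, (nm_iso h _ _ _).1 hk⟩

theorem wf_iso (h : ∀ (i : ℕ) (v : Fin (bb a i) → ℕ), y'.1 i (⇑σ ∘ v) = y.1 i v)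
    (w : FreeMonoid ℕ) (m : ℕ) : wf y'.1 w (σ m) = σ (wf y.1 w m) := by
  induction w using FreeMonoid.recOn with
  | one => rw [wf_one, wf_one]
  | of_mul j w ih => rw [wf_mul, wf_mul, wf_of, wf_of, ih, sf_iso h]

theorem rch_iso (h : ∀ (i : ℕ) (v : Fin (bb a i) → ℕ), y'.1 i (⇑σ ∘ v) = y.1 i v)
    (m n : ℕ) : Rch y'.1 (σ m) (σ n) ↔ Rch y.1 m n := by
  rw [rch_iff, rch_iff]
  refine exists_congr fun w => ?_
  rw [wf_iso h, σ.apply_eq_iff_eq]

theorem KK_iso (h : ∀ (i : ℕ) (v : Fin (bb a i) → ℕ), y'.1 i (⇑σ ∘ v) = y.1 i v)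
    (hy : KK y.1) : KK y'.1 := by
  refine ⟨fun m u v => ?_, fun i v hv => ?_⟩
  · obtain ⟨m, rfl⟩ := σ.surjective m
    obtain ⟨u, rfl⟩ := σ.surjective u
    obtain ⟨v, rfl⟩ := σ.surjective v
    rw [rch_iso h, rch_iso h, rch_iso h, rch_iso h]
    exact hy.1 m u v
  · have e1 : v = ⇑σ ∘ (⇑σ.symm ∘ v) := by
      funext t
      simp
    rw [e1, h] at hv
    obtain ⟨m, hm⟩ := hy.2 i _ hv
    refine ⟨σ m, fun t => ?_⟩
    have := (rch_iso h _ _).2 (hm t)
    simpa using this

theorem en_iso (h : ∀ (i : ℕ) (v : Fin (bb a i) → ℕ), y'.1 i (⇑σ ∘ v) = y.1 i v)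
    (h' : ∀ i m, y'.2 i (σ m) = y.2 i m) : SIso σ (En e y) (En e y') := by
  refine ⟨fun w m => wf_iso h w m, fun i m => ?_⟩
  show pv y' (σ m) (e i) = pv y m (e i)
  rcases e i with ⟨j, w⟩ | k
  · show y'.1 j (fun t => wf y'.1 (w t) (σ m)) = y.1 j fun t => wf y.1 (w t) m
    rw [← h]
    refine congrArg (y'.1 j) (funext fun t => ?_)
    exact wf_iso h _ _
  · exact h' k m

end iso

theorem de_iso {x x' : XS (FreeMonoid ℕ)} {σ : Equiv.Perm ℕ} (h : SIso σ x x') :
    (∀ (i : ℕ) (v : Fin (bb a i) → ℕ), (De e x').1 i (⇑σ ∘ v) = (De e x).1 i v) ∧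
      ∀ i u, (De e x').2 i (σ u) = (De e x).2 i u := by
  refine ⟨fun i v => ?_, fun k m => ?_⟩
  · rw [Bool.eq_iff_iff, de1, de1]
    constructor
    · rintro ⟨m, k, w, h1, h2, h3⟩
      obtain ⟨m, rfl⟩ := σ.surjective m
      refine ⟨m, k, w, h1, fun t => ?_, ?_⟩
      · have := h2 t
        rw [h.1] at this
        exact σ.injective this
      · rw [← h.2]
        exact h3
    · rintro ⟨m, k, w, h1, h2, h3⟩
      refine ⟨σ m, k, w, h1, fun t => ?_, ?_⟩
      · rw [h.1, h2 t]
        rfl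
      · rw [h.2]
        exact h3
  · rw [Bool.eq_iff_iff, de2, de2]
    refine exists_congr fun l => and_congr_right fun _ => ?_
    rw [h.2]

theorem de_iso' {x x' : XS (FreeMonoid ℕ)} {σ : Equiv.Perm ℕ} (h : SIso σ x x') :
    UIso (De e x) (De e x') := ⟨σ, de_iso h⟩

theorem meas_En : Measurable (En e : US (bb a) → XS (FreeMonoid ℕ)) := by
  refine Measurable.prodMk ?_ ?_
  · refine measurable_pi_iff.2 fun w => measurable_pi_iff.2 fun m => ?_
    refine measurable_to_countable' fun n => ?_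
    exact bp_wf (f := fun y : US (bb a) => y.1) measurable_fst w m n
  · refine measurable_pi_iff.2 fun i => measurable_pi_iff.2 fun m => ?_
    refine measurable_to_bool ?_
    have : BP (fun y : US (bb a) => pv y m (e i) = true) := by
      rcases e i with ⟨j, w⟩ | k
      · have h : BP (fun y : US (bb a) => ∃ v : Fin (bb a j) → ℕ,
            (∀ t, wf y.1 (w t) m = v t) ∧ y.1 j v = true) :=
          BP.ex fun v => (BP.all fun t => bp_wf (f := fun y : US (bb a) => y.1)
            measurable_fst (w t) m (v t)).and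
              (bp_rel (f := fun y : US (bb a) => y.1) measurable_fst j v)
        refine h.congr fun y => ?_
        constructor
        · rintro ⟨v, h1, h2⟩
          show y.1 j (fun t => wf y.1 (w t) m) = true
          rw [show (fun t => wf y.1 (w t) m) = v from funext h1]
          exact h2
        · intro h1
          exact ⟨_, fun t => rfl, h1⟩
      · have h : Measurable fun y : US (bb a) => y.2 k m :=
          (measurable_pi_apply m).comp ((measurable_pi_apply k).comp measurable_snd)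
        exact h (measurableSet_singleton true)
    exact this

theorem meas_De : Measurable (De e : XS (FreeMonoid ℕ) → US (bb a)) := by
  have m1 : ∀ (w : FreeMonoid ℕ) (m n : ℕ), BP (fun x : XS (FreeMonoid ℕ) => x.1 w m = n) := by
    intro w m n
    have h : Measurable fun x : XS (FreeMonoid ℕ) => x.1 w m :=
      (measurable_pi_apply m).comp ((measurable_pi_apply w).comp measurable_fst)
    exact h (measurableSet_singleton n)
  have m2 : ∀ (i m : ℕ), BP (fun x : XS (FreeMonoid ℕ) => x.2 i m = true) := by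
    intro i m
    have h : Measurable fun x : XS (FreeMonoid ℕ) => x.2 i m :=
      (measurable_pi_apply m).comp ((measurable_pi_apply i).comp measurable_snd)
    exact h (measurableSet_singleton true)
  refine Measurable.prodMk ?_ ?_
  · refine measurable_pi_iff.2 fun i => measurable_pi_iff.2 fun v => ?_
    refine measurable_to_bool ?_
    have : BP (fun x : XS (FreeMonoid ℕ) => ∃ (m k : ℕ) (w : Fin (bb a i) → FreeMonoid ℕ),
        e k = Sum.inl ⟨i, w⟩ ∧ (∀ t, x.1 (w t) m = v t) ∧ x.2 k m = true) :=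
      BP.ex fun m => BP.ex fun k => BP.ex fun w => (BP.const _).and <|
        (BP.all fun t => m1 _ _ _).and (m2 _ _)
    refine (congrArg MeasurableSet (Set.ext fun x => ?_)).mp this
    exact (de1 x i v).symm
  · refine measurable_pi_iff.2 fun k => measurable_pi_iff.2 fun m => ?_
    refine measurable_to_bool ?_
    have : BP (fun x : XS (FreeMonoid ℕ) => ∃ l, e l = Sum.inr k ∧ x.2 l m = true) :=
      BP.ex fun l => (BP.const _).and (m2 _ _)
    refine (congrArg MeasurableSet (Set.ext fun x => ?_)).mp this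
    exact (de2 x k m).symm

/-- the class `KK` with unary predicates -/
theorem vcu_KK : VCu (KK : RS (bb a) → Prop) := by
  intro B hB hinv hK
  have hne : Nonempty (IX a) := ⟨Sum.inr 0⟩
  obtain ⟨e, he⟩ : ∃ e : ℕ → IX a, Function.Surjective e := exists_surjective_nat _
  let B' : Set (XS (FreeMonoid ℕ)) := {x | (En e (De e x) = x ∧ De e x ∈ B)}
  have b1 : BorelSpace (FreeMonoid ℕ → ℕ → ℕ) := inferInstance
  have b3 : BorelSpace (XS (FreeMonoid ℕ)) := Prod.borelSpace
  have hB' : MeasurableSet B' := by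
    refine MeasurableSet.inter ?_ (meas_De hB)
    exact measurableSet_eq_fun (meas_En.comp meas_De) measurable_id
  have hKx : ∀ x ∈ B', KK (De e x).1 := fun x hx => hK _ hx.2
  rcases vaught_ca B' hB' (fun x hx => by
      rw [← hx.1]
      exact ca_en (hKx x hx)) (fun x hx x' σ hσ => by
      have h2 : De e x' ∈ B := (hinv _ _ (de_iso' (e := e) hσ)).1 hx.2
      refine ⟨?_, h2⟩
      -- the code of the decoded structure
      have h4 := de_iso (e := e) hσ
      have h5 : SIso σ (En e (De e x)) (En e (De e x')) := en_iso h4.1 h4.2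
      rw [hx.1] at h5
      refine Prod.ext (funext fun w => funext fun m => ?_) (funext fun i => funext fun m => ?_)
      · obtain ⟨m, rfl⟩ := σ.surjective m
        rw [h5.1, hσ.1]
      · obtain ⟨m, rfl⟩ := σ.surjective m
        rw [h5.2, hσ.2]) with ⟨f, hf⟩ | ⟨c, h1, h2, h3⟩
  · left
    refine ⟨fun n => De e (f n), fun y hy => ?_⟩
    have hy' : En e y ∈ B' := by
      refine ⟨by rw [de_en he (hK y hy)], ?_⟩
      show De e (En e y) ∈ B
      rw [de_en he (hK y hy)]
      exact hy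
    obtain ⟨n, σ, hσ⟩ := hf _ hy'
    have := de_iso' (e := e) hσ
    rw [de_en he (hK y hy)] at this
    exact ⟨n, this⟩
  · right
    have b1' : BorelSpace ((i : ℕ) → (Fin (bb a i) → ℕ) → Bool) := inferInstance
    have b2' : BorelSpace (ℕ → ℕ → Bool) := inferInstance
    have s1' : SecondCountableTopology (US (bb a)) := inferInstance
    have b3' : BorelSpace (US (bb a)) := inferInstance
    obtain ⟨h, h4, h5⟩ := cont_of_meas (X := US (bb a)) (meas_De.comp h1.measurable)
    refine ⟨_, h5, fun u => (h2 _).2, fun u v huv => ?_⟩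
    apply h4
    refine h3 _ _ ?_
    obtain ⟨σ, g1, g2⟩ := huv
    refine ⟨σ, ?_⟩
    have h6 : SIso σ (En e (De e (c (h u)))) (En e (De e (c (h v)))) := en_iso g1 g2
    rwa [(h2 (h u)).1, (h2 (h v)).1] at h6

theorem coan_KK : Coan (KK : RS (bb a) → Prop) := by
  have hP : PolishSpace (RS (bb a)) := Pool.Agent.H533R2.VS.kis_pRS (bb a)
  have h : BP (fun z : RS (bb a) => KK z) := bp_KK (f := fun z : RS (bb a) => z) measurable_id
  exact MeasurableSet.analyticSet (show MeasurableSet {z : RS (bb a) | ¬ KK z} from h.compl)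

theorem inv_KK : Inv (KK : RS (bb a) → Prop) := by
  rintro z z' ⟨σ, h⟩ hz
  exact KK_iso (y := (z, fun _ _ => false)) (y' := (z', fun _ _ => false)) (σ := σ) h hz

/-! ### Definable steps, with parameters -/

/-- a family of definable relations, with parameters -/
structure DefR (D : ℕ → List ℕ → RS a → ℕ → ℕ → Prop) : Prop where
  meas : ∀ j p m n, MeasurableSet {x | D j p x m n}
  equi : ∀ j p x (σ : Equiv.Perm ℕ) m n,
    D j (p.map σ) (act σ x) (σ m) (σ n) ↔ D j p x m n

/-- the named steps -/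
def Nam (D : ℕ → List ℕ → RS a → ℕ → ℕ → Prop) (p : List ℕ) (x : RS a) (j m n : ℕ) : Prop :=
  D j p x m n ∧ ∀ n', D j p x m n' → n' = n

/-- reachable by named steps -/
def RchD (D : ℕ → List ℕ → RS a → ℕ → ℕ → Prop) (p : List ℕ) (x : RS a) : ℕ → ℕ → Prop :=
  Relation.ReflTransGen fun m n => ∃ j, Nam D p x j m n

open Classical in
/-- expansion by the named steps -/
noncomputable def cD (D : ℕ → List ℕ → RS a → ℕ → ℕ → Prop) (p : List ℕ) (x : RS a) :
    RS (bb a) :=
  fun i v => if h : i % 2 = 0 then x (i / 2) (fun t => v (Fin.cast (by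
      unfold bb
      rw [if_pos h]) t))
    else decide (Nam D p x (i / 2) (v (Fin.cast (by unfold bb; rw [if_neg h]) (0 : Fin 2)))
      (v (Fin.cast (by unfold bb; rw [if_neg h]) (1 : Fin 2))))

theorem cD_even (D : ℕ → List ℕ → RS a → ℕ → ℕ → Prop) (p : List ℕ) (x : RS a) {i : ℕ}
    (v : Fin (bb a i) → ℕ) (h : i % 2 = 0) : cD D p x i v = x (i / 2) (fun t =>
      v (Fin.cast (by
        unfold bb
        rw [if_pos h]) t)) := by
  unfold cD
  rw [dif_pos h]

theorem cD_odd (D : ℕ → List ℕ → RS a → ℕ → ℕ → Prop) (p : List ℕ) (x : RS a) {i : ℕ}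
    (v : Fin (bb a i) → ℕ) (h : ¬ i % 2 = 0) : cD D p x i v = true ↔
      Nam D p x (i / 2) (v (Fin.cast (by unfold bb; rw [if_neg h]) (0 : Fin 2)))
        (v (Fin.cast (by unfold bb; rw [if_neg h]) (1 : Fin 2))) := by
  classical
  unfold cD
  rw [dif_neg h, decide_eq_true_iff]

/-- forget the steps -/
def dD (_ : List ℕ) (z : RS (bb a)) : RS a :=
  fun j v => z (2 * j) (fun t => v (Fin.cast (bb0 a j) t))

variable {D : ℕ → List ℕ → RS a → ℕ → ℕ → Prop}

theorem dD_cD (p : List ℕ) (x : RS a) : dD p (cD D p x) = x := by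
  funext j v
  unfold dD cD
  rw [dif_pos (by omega)]
  have key : ∀ (k : ℕ) (hk : k = j) (h : a k = a j), x k (fun t => v (Fin.cast h t)) = x j v := by
    intro k hk h
    subst hk
    rfl
  exact key (2 * j / 2) (by omega) (by rw [show 2 * j / 2 = j by omega])

theorem dr_cD (p : List ℕ) (x : RS a) (j m n : ℕ) : dr (cD D p x) j m n ↔ Nam D p x j m n := by
  unfold dr
  rw [cD_odd D p x _ (by omega)]
  have key : ∀ k, k = j → (Nam D p x k m n ↔ Nam D p x j m n) := by
    rintro k rfl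
    exact Iff.rfl
  exact key ((2 * j + 1) / 2) (by omega)

theorem nm_cD (p : List ℕ) (x : RS a) (j m n : ℕ) : nm (cD D p x) j m n ↔ Nam D p x j m n := by
  unfold nm
  rw [dr_cD]
  refine ⟨fun h => h.1, fun h => ⟨h, fun n' h' => ?_⟩⟩
  rw [dr_cD] at h'
  exact h.2 n' h'.1

theorem rch_cD (p : List ℕ) (x : RS a) (m n : ℕ) : Rch (cD D p x) m n ↔ RchD D p x m n := by
  unfold Rch RchD
  simp only [nm_cD]

theorem nam_equi (hD : DefR D) (j : ℕ) (p : List ℕ) (x : RS a) (σ : Equiv.Perm ℕ) (m n : ℕ) :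
    Nam D (p.map σ) (act σ x) j (σ m) (σ n) ↔ Nam D p x j m n := by
  unfold Nam
  rw [hD.equi]
  refine and_congr_right fun _ => ?_
  constructor
  · intro h n' h'
    exact σ.injective (h (σ n') ((hD.equi _ _ _ _ _ _).2 h'))
  · intro h n' h'
    obtain ⟨n', rfl⟩ := σ.surjective n'
    rw [h n' ((hD.equi _ _ _ _ _ _).1 h')]

theorem pcanon_D (hD : DefR D) : PCanon (cD D) (dD : List ℕ → RS (bb a) → RS a) := by
  classical
  refine ⟨fun p => ?_, fun p => ?_, fun σ p x => ?_, fun σ p z => rfl⟩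
  · refine measurable_pi_lambda _ fun i => measurable_pi_lambda _ fun v => ?_
    by_cases h : i % 2 = 0
    · have e1 : (fun x : RS a => cD D p x i v) = fun x => x (i / 2) (fun t => v (Fin.cast (by
          unfold bb
          rw [if_pos h]) t)) := by
        funext x
        unfold cD
        rw [dif_pos h]
      rw [e1]
      exact (measurable_pi_apply _).comp (measurable_pi_apply _)
    · refine measurable_to_bool ?_
      have e1 : (fun x : RS a => cD D p x i v) ⁻¹' {true} =
          {x | Nam D p x (i / 2) (v (Fin.cast (by unfold bb; rw [if_neg h]) (0 : Fin 2)))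
            (v (Fin.cast (by unfold bb; rw [if_neg h]) (1 : Fin 2)))} := by
        ext x
        exact cD_odd D p x v h
      rw [e1]
      have h2 : BP (fun x : RS a => D (i / 2) p x
          (v (Fin.cast (by unfold bb; rw [if_neg h]) (0 : Fin 2)))
          (v (Fin.cast (by unfold bb; rw [if_neg h]) (1 : Fin 2))) ∧ ∀ n', D (i / 2) p x
          (v (Fin.cast (by unfold bb; rw [if_neg h]) (0 : Fin 2))) n' →
            n' = v (Fin.cast (by unfold bb; rw [if_neg h]) (1 : Fin 2))) :=
        BP.and (show MeasurableSet _ from hD.meas _ _ _ _) (BP.all fun n' =>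
          BP.imp (show MeasurableSet _ from hD.meas _ _ _ _) (BP.const _))
      exact h2
  · exact measurable_pi_lambda _ fun j => measurable_pi_lambda _ fun v =>
      (measurable_pi_apply _).comp (measurable_pi_apply _)
  · funext i v
    by_cases h : i % 2 = 0
    · show cD D (p.map σ) (act σ x) i v = cD D p x i (⇑σ.symm ∘ v)
      rw [cD_even _ _ _ _ h, cD_even _ _ _ _ h]
      rfl
    · show cD D (p.map σ) (act σ x) i v = cD D p x i (⇑σ.symm ∘ v)
      rw [Bool.eq_iff_iff, cD_odd _ _ _ _ h, cD_odd _ _ _ _ h, ← nam_equi hD _ p x σ]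
      simp only [Function.comp_apply, σ.apply_symm_apply]

/-- the class -/
def WW (D : ℕ → ℕ → List ℕ → RS a → ℕ → ℕ → Prop) (x : RS a) : Prop :=
  ∃ k p, (∀ m u v, RchD (D k) p x m u → RchD (D k) p x m v →
      RchD (D k) p x u v ∨ RchD (D k) p x v u) ∧
    ∀ i v, x i v = true → ∃ m, ∀ t, RchD (D k) p x m (v t)

theorem kk_cD {p : List ℕ} {x : RS a} (h1 : ∀ m u v, RchD D p x m u → RchD D p x m v →
      RchD D p x u v ∨ RchD D p x v u)
    (h2 : ∀ i v, x i v = true → ∃ m, ∀ t, RchD D p x m (v t)) : KK (cD D p x) := by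
  refine ⟨fun m u v => ?_, fun i v hv => ?_⟩
  · simp only [rch_cD]
    exact h1 m u v
  · simp only [rch_cD]
    by_cases h : i % 2 = 0
    · rw [cD_even _ _ _ _ h] at hv
      obtain ⟨m, hm⟩ := h2 _ _ hv
      refine ⟨m, fun t => ?_⟩
      have := hm (Fin.cast (by unfold bb; rw [if_pos h]) t)
      exact this
    · rw [cD_odd _ _ _ _ h] at hv
      refine ⟨v (Fin.cast (by unfold bb; rw [if_neg h]) (0 : Fin 2)), fun t => ?_⟩
      have hb : bb a i = 2 := by unfold bb; rw [if_neg h]
      obtain ⟨u, rfl⟩ : ∃ u : Fin 2, t = Fin.cast hb.symm u := ⟨Fin.cast hb t, rfl⟩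
      fin_cases u
      · exact Relation.ReflTransGen.refl
      · exact Relation.ReflTransGen.single ⟨_, hv⟩

/-- **The dichotomy.** -/
theorem vc_WW {D : ℕ → ℕ → List ℕ → RS a → ℕ → ℕ → Prop} (hD : ∀ k, DefR (D k)) :
    VC (WW D) := by
  intro B hB hi hV
  have hV2 : VCu fun x : RS a => ∃ k, PExp (cD (D k)) (dD : List ℕ → RS (bb a) → RS a) KK x :=
    Pool.Agent.TH425.FF.cun_vcu _
      (fun k => Pool.Agent.TH425.FF.pexp_vcu (pcanon_D (hD k)) vcu_KK coan_KK inv_KK)
      (fun k => Pool.Agent.TH425.FF.pexp_coan (pcanon_D (hD k)) coan_KK)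
      (fun k => Pool.Agent.TH425.FF.pexp_inv (pcanon_D (hD k)) inv_KK)
  refine Pool.Agent.H533R2.VS.vs_plain _ _ hV2 B hB hi fun x hx => ?_
  obtain ⟨k, p, h1, h2⟩ := hV x hx
  exact ⟨k, p, kk_cD h1 h2, dD_cD p x⟩

end Pool.Agent.N649.KA
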