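import Pool.Agent.N649.KA.Frame
import Pool.Agent.W889.SD.Enum

set_option autoImplicit false
set_option linter.unusedSectionVars false

/-! Semilinear orders with a group action which code acts with chains as one-generated subacts. -/

namespace Pool.Agent.N649.KA

open Pool.Agent.W889.SD (equiv_of_rel)

section gen

variable {S : Type} [Monoid S] {J : Set (TY S)} {hJ : JJ J} {Γ : Type} [Group Γ] {O : Type}
  (F : FR J hJ Γ O) (en : J → ℕ) {M N : Type}

/-- the points of type `c` -/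
def col (co : ℕ → M → Prop) (c : J) (u : M) : Prop := co (en c) u

/-- the main points -/
def PP (co : ℕ → M → Prop) (u : M) : Prop := ∃ c : J, col en co c u

/-- `v` is reached from `u` by a step with label `w` -/
def Rl (lt : M → M → Prop) (ac : Γ → M → M) (w : Γ) (u v : M) : Prop :=
  lt (ac w⁻¹ v) u ∨ ac w⁻¹ v = u

/-- the graph of the action of `t` -/
def Gr (lt : M → M → Prop) (ac : Γ → M → M) (co : ℕ → M → Prop) (t : S) (u v : M) : Prop :=
  ∃ c : J, col en co c u ∧ col en co (sJ hJ t c) v ∧ Rl lt ac (F.gn c t) u v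

/-- semilinear orders with a group action which code acts -/
structure WZ (lt : M → M → Prop) (ac : Γ → M → M) (co : ℕ → M → Prop) : Prop where
  irr : ∀ m, ¬ lt m m
  tr : ∀ m n k, lt m n → lt n k → lt m k
  sem : ∀ m n k, lt m k → lt n k → m = n ∨ lt m n ∨ lt n m
  one : ∀ m, ac 1 m = m
  mul : ∀ γ δ m, ac (γ * δ) m = ac γ (ac δ m)
  mono : ∀ γ m n, lt m n → lt (ac γ m) (ac γ n)
  inf : Infinite {u // PP (J := J) en co u}
  cov : ∀ z, ∃ γ p, PP (J := J) en co p ∧ ac γ p = z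
  cun : ∀ (c c' : J) u, col en co c u → col en co c' u → c = c'
  oth : ∀ i z, co i z → ∃ c : J, en c = i
  un : ∀ γ p (c c' : J), col en co c p → col en co c' (ac γ p) →
    ∃ t, c' = sJ hJ t c ∧ Lab F c t γ
  fix : ∀ (c : J) p g, Lab F c 1 g → col en co c p → ac g p = p
  ord : ∀ γ p q (c c' : J), col en co c p → col en co c' q → lt (ac γ q) p →
    (∃ t, c' = sJ hJ t c ∧ Lab F c t γ⁻¹) ∧ ¬ ∃ t, c = sJ hJ t c' ∧ Lab F c' t γ
  fn : ∀ (c : J) t w p, Lab F c t w → col en co c p →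
    ∃ q, col en co (sJ hJ t c) q ∧ Rl lt ac w p q

variable {F en} {lt : M → M → Prop} {ac : Γ → M → M} {co : ℕ → M → Prop}
  {lt' : N → N → Prop} {ac' : Γ → N → N} {co' : ℕ → N → Prop}

theorem WZ.cancel (w : WZ F en lt ac co) (γ : Γ) (m : M) : ac γ⁻¹ (ac γ m) = m := by
  rw [← w.mul, inv_mul_cancel, w.one]

theorem WZ.cancel' (w : WZ F en lt ac co) (γ : Γ) (m : M) : ac γ (ac γ⁻¹ m) = m := by
  rw [← w.mul, mul_inv_cancel, w.one]

theorem WZ.nlt (w : WZ F en lt ac co) {c c' : J} {p q : M} (hp : col en co c p)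
    (hq : col en co c' q) : ¬ lt q p := by
  intro h
  rw [← w.one q] at h
  obtain ⟨⟨t, h1, h2⟩, h3⟩ := w.ord 1 p q c c' hp hq h
  rw [inv_one] at h2
  obtain ⟨h4, -⟩ := lab_id h2
  apply h3
  refine ⟨1, ?_, lab_one c'⟩
  rw [sJ_one, h1, h4]

theorem WZ.rl_lt (w : WZ F en lt ac co) {g : Γ} {c c' : J} {v v' : M} (hv : col en co c v)
    (hv' : col en co c' v') (h : lt (ac g⁻¹ v) (ac g⁻¹ v')) : False := by
  have := w.mono g _ _ h
  rw [w.cancel', w.cancel'] at this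
  exact w.nlt hv' hv this

/-- one label, one point -/
theorem WZ.rl_un (w : WZ F en lt ac co) {g : Γ} {c c' : J} {u v v' : M} (hv : col en co c v)
    (hv' : col en co c' v') (h : Rl lt ac g u v) (h' : Rl lt ac g u v') : v = v' := by
  rcases h with h | h <;> rcases h' with h' | h'
  · rcases w.sem _ _ _ h h' with h1 | h1 | h1
    · have := congrArg (ac g) h1
      rwa [w.cancel', w.cancel'] at this
    · exact (w.rl_lt hv hv' h1).elim
    · exact (w.rl_lt hv' hv h1).elim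
  · rw [← h'] at h
    exact (w.rl_lt hv hv' h).elim
  · rw [← h] at h'
    exact (w.rl_lt hv' hv h').elim
  · have := congrArg (ac g) (h.trans h'.symm)
    rwa [w.cancel', w.cancel'] at this

/-- labels of the same step: comparison -/
theorem WZ.lab_lt (w : WZ F en lt ac co) {g g' : Γ} {c : J} {t : S} {v v' : M}
    (hg : Lab F c t g) (hg' : Lab F c t g') (hv : col en co (sJ hJ t c) v)
    (hv' : col en co (sJ hJ t c) v') (h : lt (ac g⁻¹ v) (ac g'⁻¹ v')) : False := by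
  have h1 := w.mono g' _ _ h
  rw [w.cancel', ← w.mul] at h1
  obtain ⟨-, h2⟩ := w.ord _ _ _ _ _ hv' hv h1
  refine h2 ⟨1, (sJ_one hJ _).symm, lab_div hg hg' ?_⟩
  rw [one_mul]
  exact hJ.refl _ c.2 _

/-- labels of the same step: equality -/
theorem WZ.lab_eq (w : WZ F en lt ac co) {g g' : Γ} {c : J} {t : S} {v v' : M}
    (hg : Lab F c t g) (hg' : Lab F c t g') (hv : col en co (sJ hJ t c) v)
    (h : ac g⁻¹ v = ac g'⁻¹ v') : v = v' := by
  have h1 := congrArg (ac g') h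
  rw [w.cancel', ← w.mul, w.fix (sJ hJ t c) v (g' * g⁻¹) (lab_div hg hg' (by
    rw [one_mul]
    exact hJ.refl _ c.2 _)) hv] at h1
  exact h1

/-- labels of the same step lead to the same point -/
theorem WZ.rl_un' (w : WZ F en lt ac co) {g g' : Γ} {c : J} {t : S} {u v v' : M}
    (hg : Lab F c t g) (hg' : Lab F c t g') (hv : col en co (sJ hJ t c) v)
    (hv' : col en co (sJ hJ t c) v') (h : Rl lt ac g u v) (h' : Rl lt ac g' u v') : v = v' := by
  rcases h with h | h <;> rcases h' with h' | h'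
  · rcases w.sem _ _ _ h h' with h1 | h1 | h1
    · exact w.lab_eq hg hg' hv h1
    · exact (w.lab_lt hg hg' hv hv' h1).elim
    · exact (w.lab_lt hg' hg hv' hv h1).elim
  · rw [← h'] at h
    exact (w.lab_lt hg hg' hv hv' h).elim
  · rw [← h] at h'
    exact (w.lab_lt hg' hg hv' hv h').elim
  · exact w.lab_eq hg hg' hv (h.trans h'.symm)

theorem WZ.gr_ex (w : WZ F en lt ac co) (t : S) {u : M} (hu : PP (J := J) en co u) :
    ∃ v, PP (J := J) en co v ∧ Gr F en lt ac co t u v := by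
  obtain ⟨c, hc⟩ := hu
  obtain ⟨q, h1, h2⟩ := w.fn c t _ u (lab_gn c t) hc
  exact ⟨q, ⟨_, h1⟩, c, hc, h1, h2⟩

theorem WZ.gr_un (w : WZ F en lt ac co) {t : S} {u v v' : M} (h : Gr F en lt ac co t u v)
    (h' : Gr F en lt ac co t u v') : v = v' := by
  obtain ⟨c, h1, h2, h3⟩ := h
  obtain ⟨c', h1', h2', h3'⟩ := h'
  obtain rfl := w.cun _ _ _ h1 h1'
  exact w.rl_un h2 h2' h3 h3'

/-- every label gives the action -/
theorem WZ.gr_of (w : WZ F en lt ac co) {t : S} {g : Γ} {c : J} {u v : M} (hg : Lab F c t g)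
    (hu : col en co c u) (hv : col en co (sJ hJ t c) v) (h : Rl lt ac g u v) :
    Gr F en lt ac co t u v := by
  obtain ⟨q, h1, h2⟩ := w.fn c t _ u (lab_gn c t) hu
  have := w.rl_un' hg (lab_gn c t) hv h1 h h2
  subst this
  exact ⟨c, hu, h1, h2⟩

theorem WZ.gr_rl (w : WZ F en lt ac co) {t : S} {g : Γ} {c : J} {u v : M} (hg : Lab F c t g)
    (hu : col en co c u) (h : Gr F en lt ac co t u v) : Rl lt ac g u v := by
  obtain ⟨c', h1, h2, h3⟩ := h
  obtain rfl := w.cun _ _ _ hu h1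
  obtain ⟨q, h4, h5⟩ := w.fn c t g u hg hu
  have := w.rl_un' hg (lab_gn c t) h4 h2 h5 h3
  subst this
  exact h5

section map

variable {σ : M ≃ N}

theorem WZ.map (w : WZ F en lt ac co) (h1 : ∀ m n, lt' (σ m) (σ n) ↔ lt m n)
    (h2 : ∀ γ m, ac' γ (σ m) = σ (ac γ m)) (h3 : ∀ i m, co' i (σ m) ↔ co i m) :
    WZ F en lt' ac' co' := by
  have sj := σ.surjective
  have h4 : ∀ (c : J) m, col en co' c (σ m) ↔ col en co c m := fun c m => h3 _ m
  have h5 : ∀ m, PP (J := J) en co' (σ m) ↔ PP (J := J) en co m := fun m =>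
    exists_congr fun c => h4 c m
  refine ⟨fun m => ?_, fun m n k => ?_, fun m n k => ?_, fun m => ?_, fun γ δ m => ?_,
    fun γ m n => ?_, ?_, fun z => ?_, fun c c' u => ?_, fun i z => ?_, fun γ p c c' => ?_,
    fun c p g => ?_, fun γ p q c c' => ?_, fun c t g p => ?_⟩
  · obtain ⟨m, rfl⟩ := sj m
    rw [h1]
    exact w.irr m
  · obtain ⟨m, rfl⟩ := sj m
    obtain ⟨n, rfl⟩ := sj n
    obtain ⟨k, rfl⟩ := sj k
    rw [h1, h1, h1]
    exact w.tr m n k
  · obtain ⟨m, rfl⟩ := sj m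
    obtain ⟨n, rfl⟩ := sj n
    obtain ⟨k, rfl⟩ := sj k
    rw [h1, h1, h1, h1, σ.apply_eq_iff_eq]
    exact w.sem m n k
  · obtain ⟨m, rfl⟩ := sj m
    rw [h2, w.one]
  · obtain ⟨m, rfl⟩ := sj m
    rw [h2, h2, h2, w.mul]
  · obtain ⟨m, rfl⟩ := sj m
    obtain ⟨n, rfl⟩ := sj n
    rw [h2, h2, h1, h1]
    exact w.mono γ m n
  · have := w.inf
    exact Infinite.of_injective (fun u : {u // PP (J := J) en co u} =>
      (⟨σ u, (h5 u).2 u.2⟩ : {u // PP (J := J) en co' u})) fun u v huv =>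
        Subtype.ext (σ.injective (congrArg Subtype.val huv))
  · obtain ⟨z, rfl⟩ := sj z
    obtain ⟨γ, p, h6, h7⟩ := w.cov z
    exact ⟨γ, σ p, (h5 p).2 h6, by rw [h2, h7]⟩
  · obtain ⟨u, rfl⟩ := sj u
    rw [h4, h4]
    exact w.cun c c' u
  · obtain ⟨z, rfl⟩ := sj z
    rw [h3]
    exact w.oth i z
  · obtain ⟨p, rfl⟩ := sj p
    rw [h2, h4, h4]
    exact w.un γ p c c'
  · obtain ⟨p, rfl⟩ := sj p
    rw [h2, h4, σ.apply_eq_iff_eq]
    exact w.fix c p g
  · obtain ⟨p, rfl⟩ := sj p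
    obtain ⟨q, rfl⟩ := sj q
    rw [h2, h4, h4, h1]
    exact w.ord γ p q c c'
  · obtain ⟨p, rfl⟩ := sj p
    rw [h4]
    intro h6 h7
    obtain ⟨q, h8, h9⟩ := w.fn c t g p h6 h7
    refine ⟨σ q, (h4 _ q).2 h8, ?_⟩
    unfold Rl at h9 ⊢
    rw [h2, h1, σ.apply_eq_iff_eq]
    exact h9

theorem gr_map (h1 : ∀ m n, lt' (σ m) (σ n) ↔ lt m n)
    (h2 : ∀ γ m, ac' γ (σ m) = σ (ac γ m)) (h3 : ∀ i m, co' i (σ m) ↔ co i m)
    (t : S) (u v : M) :
    Gr F en lt' ac' co' t (σ u) (σ v) ↔ Gr F en lt ac co t u v := by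
  unfold Gr Rl col
  simp only [h2, h1, h3, σ.apply_eq_iff_eq]

end map

/-- the key step -/
theorem zkey (w : WZ F en lt ac co) (w' : WZ F en lt' ac' co')
    (π : {u // PP (J := J) en co u} → {u // PP (J := J) en co' u})
    (h0 : ∀ (c : J) (u : {u // PP (J := J) en co u}), col en co c u → col en co' c (π u))
    (h1 : ∀ (t : S) (u v : {u // PP (J := J) en co u}), Gr F en lt ac co t u v →
      Gr F en lt' ac' co' t (π u) (π v))
    {γ δ : Γ} {p q : {u // PP (J := J) en co u}} (h : ac γ p = ac δ q) :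
    ac' γ (π p) = ac' δ (π q) := by
  have h2 : ac (δ⁻¹ * γ) p = q := by
    rw [w.mul, h, w.cancel]
  obtain ⟨c, hc⟩ := p.2
  obtain ⟨c', hc'⟩ := q.2
  obtain ⟨t, h3, h4⟩ := w.un (δ⁻¹ * γ) p c c' hc (by rw [h2]; exact hc')
  have h5 : Rl lt ac (δ⁻¹ * γ) p q := Or.inr (by rw [← h2, w.cancel])
  have h6 : Gr F en lt ac co t p q := w.gr_of h4 hc (by rw [← h3]; exact hc') h5
  have h7 := w'.gr_rl h4 (h0 c p hc) (h1 t p q h6)
  have h8 : ac (δ⁻¹ * γ)⁻¹ q = p := by rw [← h2, w.cancel]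
  obtain ⟨t', h9, h10⟩ := w.un (δ⁻¹ * γ)⁻¹ q c' c hc' (by rw [h8]; exact hc)
  rcases h7 with h7 | h7
  · exact absurd ⟨t', h9, h10⟩ (w'.ord _ _ _ _ _ (h0 c p hc) (h0 c' q hc') h7).2
  · rw [← h7, ← w'.mul]
    rw [show γ * (δ⁻¹ * γ)⁻¹ = δ by group]

theorem zlt (w : WZ F en lt ac co) (w' : WZ F en lt' ac' co')
    (π : {u // PP (J := J) en co u} → {u // PP (J := J) en co' u})
    (h0 : ∀ (c : J) (u : {u // PP (J := J) en co u}), col en co c u → col en co' c (π u))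
    (h1 : ∀ (t : S) (u v : {u // PP (J := J) en co u}), Gr F en lt ac co t u v →
      Gr F en lt' ac' co' t (π u) (π v))
    {γ δ : Γ} {p q : {u // PP (J := J) en co u}} (h : lt (ac γ p) (ac δ q)) :
    lt' (ac' γ (π p)) (ac' δ (π q)) := by
  have h2 : lt (ac (δ⁻¹ * γ) p) q := by
    have := w.mono δ⁻¹ _ _ h
    rwa [w.cancel, ← w.mul] at this
  obtain ⟨c, hc⟩ := p.2
  obtain ⟨c', hc'⟩ := q.2
  obtain ⟨⟨t, h3, h4⟩, h5⟩ := w.ord _ _ _ _ _ hc' hc h2
  have h6 : Rl lt ac (δ⁻¹ * γ)⁻¹ q p := Or.inl (by rw [inv_inv]; exact h2)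
  have h7 : Gr F en lt ac co t q p := w.gr_of h4 hc' (by rw [← h3]; exact hc) h6
  have h8 := w'.gr_rl h4 (h0 c' q hc') (h1 t q p h7)
  have h9 : lt' (ac' (δ⁻¹ * γ) (π p)) (π q) := by
    rcases h8 with h8 | h8
    · rwa [inv_inv] at h8
    · exfalso
      rw [inv_inv] at h8
      apply h5
      exact w'.un _ _ _ _ (h0 c p hc) (by rw [h8]; exact h0 c' q hc')
  have h10 := w'.mono δ _ _ h9
  rwa [← w'.mul, mul_inv_cancel_left] at h10

/-- isomorphic acts give isomorphic orders -/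
theorem zlift (w : WZ F en lt ac co) (w' : WZ F en lt' ac' co')
    (π : {u // PP (J := J) en co u} ≃ {u // PP (J := J) en co' u})
    (h0 : ∀ (c : J) (u : {u // PP (J := J) en co u}), col en co c u ↔ col en co' c (π u))
    (h1 : ∀ (t : S) (u v : {u // PP (J := J) en co u}), Gr F en lt ac co t u v ↔
      Gr F en lt' ac' co' t (π u) (π v)) :
    ∃ σ : M ≃ N, (∀ m n, lt' (σ m) (σ n) ↔ lt m n) ∧ (∀ γ m, ac' γ (σ m) = σ (ac γ m)) ∧
      ∀ i m, co' i (σ m) ↔ co i m := by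
  have j0 : ∀ (c : J) (u : {u // PP (J := J) en co u}), col en co c u → col en co' c (π u) :=
    fun c u => (h0 c u).1
  have i1 : ∀ (t : S) (u v : {u // PP (J := J) en co u}), Gr F en lt ac co t u v →
      Gr F en lt' ac' co' t (π u) (π v) := fun t u v => (h1 t u v).1
  have j2 : ∀ (c : J) (u : {u // PP (J := J) en co' u}), col en co' c u →
      col en co c (π.symm u) := fun c u h => by
    apply (h0 c _).2
    rw [π.apply_symm_apply]
    exact h
  have i2 : ∀ (t : S) (u v : {u // PP (J := J) en co' u}), Gr F en lt' ac' co' t u v →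
      Gr F en lt ac co t (π.symm u) (π.symm v) := fun t u v h => by
    apply (h1 t _ _).2
    rw [π.apply_symm_apply, π.apply_symm_apply]
    exact h
  let R : M → N → Prop := fun m m' => ∃ (γ : Γ) (p : {u // PP (J := J) en co u}),
    ac γ p = m ∧ ac' γ (π p) = m'
  have k3 : ∀ m m' m'', R m m' → R m m'' → m' = m'' := by
    rintro m m' m'' ⟨γ, p, h3, rfl⟩ ⟨δ, q, h4, rfl⟩
    exact zkey w w' π j0 i1 (h3.trans h4.symm)
  have k4 : ∀ m m' m'', R m m'' → R m' m'' → m = m' := by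
    rintro m m' m'' ⟨γ, p, rfl, h3⟩ ⟨δ, q, rfl, h4⟩
    have := zkey w' w π.symm j2 i2 (h3.trans h4.symm)
    rwa [π.symm_apply_apply, π.symm_apply_apply] at this
  obtain ⟨σ, hσ⟩ := equiv_of_rel R
    (fun m => by
      obtain ⟨γ, p, h3, rfl⟩ := w.cov m
      exact ⟨ac' γ (π ⟨p, h3⟩), γ, ⟨p, h3⟩, rfl, rfl⟩)
    (fun m' => by
      obtain ⟨γ, p, h3, rfl⟩ := w'.cov m'
      exact ⟨ac γ (π.symm ⟨p, h3⟩), γ, π.symm ⟨p, h3⟩, rfl, by rw [π.apply_symm_apply]⟩) k3 k4
  refine ⟨σ, fun m n => ?_, fun γ m => ?_, fun i m => ?_⟩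
  · obtain ⟨γ, p, h3, h4⟩ := hσ m
    obtain ⟨δ, q, h5, h6⟩ := hσ n
    rw [← h4, ← h6]
    constructor
    · intro h
      have := zlt w' w π.symm j2 i2 h
      rw [π.symm_apply_apply, π.symm_apply_apply] at this
      rwa [← h3, ← h5]
    · intro h
      rw [← h3, ← h5] at h
      exact zlt w w' π j0 i1 h
  · obtain ⟨δ, p, h3, h4⟩ := hσ m
    refine k3 (ac γ m) _ _ ⟨γ * δ, p, ?_, ?_⟩ (hσ _)
    · rw [w.mul, h3]
    · rw [w'.mul, h4]
  · -- the types of the points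
    have key : ∀ u : {u // PP (J := J) en co u}, σ u = π u := fun u =>
      k3 u _ _ (hσ u) ⟨1, u, w.one _, w'.one _⟩
    constructor
    · intro h
      obtain ⟨c, rfl⟩ := w'.oth i _ h
      have h3 : col en co' c (σ m) := h
      let v : {u // PP (J := J) en co' u} := ⟨σ m, c, h3⟩
      have h4 : (σ (π.symm v : M) : N) = σ m := by
        rw [key, π.apply_symm_apply]
      have h5 := σ.injective h4
      have h6 := j2 c v h3
      rwa [h5] at h6
    · intro h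
      obtain ⟨c, rfl⟩ := w.oth i _ h
      have h3 : col en co c m := h
      have h4 := j0 c ⟨m, c, h3⟩ h3
      rw [← key] at h4
      exact h4

end gen

end Pool.Agent.N649.KA
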