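import Pool.Agent.N649.KA.WZ

set_option autoImplicit false
set_option linter.unusedSectionVars false

/-! The semilinear order with a group action of an act with chains as one-generated subacts. -/

namespace Pool.Agent.N649.KA

section pos

variable {S : Type} [Monoid S] {J : Set (TY S)} {hJ : JJ J} {Γ : Type} [Group Γ] {O : Type}
  (F : FR J hJ Γ O) (en : J → ℕ) {M : Type} (x : S → M → M) (c : M → J)

/-- the laws: `x` is an act with chains as one-generated subacts, `c m` is the type of `m` -/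
structure LW (hJ : JJ J) (x : S → M → M) (c : M → J) : Prop where
  one : ∀ m, x 1 m = m
  mul : ∀ s t m, x (s * t) m = x s (x t m)
  ch : ∀ s t m, ∃ q, x t m = x q (x s m) ∨ x s m = x q (x t m)
  eq : ∀ m a b, (c m).1.1 a b = true ↔ x a m = x b m
  sh : ∀ m t, c (x t m) = sJ hJ t (c m)

/-- the preorder -/
def rr (a b : M × Γ) : Prop := ∃ t w, Lab F (c b.1) t w ∧ a.2 = w * b.2 ∧ a.1 = x t b.1

variable {F x c}

theorem LW.refl (h : LW hJ x c) (a : M × Γ) : rr F x c a a :=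
  ⟨1, 1, lab_one _, (one_mul _).symm, (h.one _).symm⟩

theorem LW.trans (h : LW hJ x c) {a b d : M × Γ} (h1 : rr F x c a b) (h2 : rr F x c b d) :
    rr F x c a d := by
  obtain ⟨t, w, h3, h4, h5⟩ := h1
  obtain ⟨t', w', h6, h7, h8⟩ := h2
  refine ⟨t * t', w * w', lab_mul h6 ?_, by rw [h4, h7, mul_assoc], by rw [h5, h8, h.mul]⟩
  rw [← h.sh, ← h8]
  exact h3

/-- labels of a chain -/
theorem LW.div (h : LW hJ x c) {m : M} {t r q : S} {w v : Γ} (h1 : Lab F (c m) t w)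
    (h2 : Lab F (c m) r v) (h3 : x r m = x q (x t m)) :
    Lab F (c (x t m)) q (v * w⁻¹) := by
  rw [h.sh]
  refine lab_div h1 h2 ((h.eq _ _ _).2 ?_)
  rw [h3, h.mul]

/-- the equivalence -/
def sd (F : FR J hJ Γ O) (h : LW hJ x c) : Setoid (M × Γ) where
  r a b := rr F x c a b ∧ rr F x c b a
  iseqv := ⟨fun a => ⟨h.refl a, h.refl a⟩, fun h1 => ⟨h1.2, h1.1⟩,
    fun h1 h2 => ⟨h.trans h1.1 h2.1, h.trans h2.2 h1.2⟩⟩

/-- the universe -/
def ZQ (F : FR J hJ Γ O) (h : LW hJ x c) : Type := Quotient (sd F h)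

/-- a point -/
def zp (F : FR J hJ Γ O) (h : LW hJ x c) (a : M × Γ) : ZQ F h := Quotient.mk (sd F h) a

theorem zp_eq (h : LW hJ x c) (a b : M × Γ) :
    zp F h a = zp F h b ↔ rr F x c a b ∧ rr F x c b a := by
  constructor
  · intro h1
    exact Quotient.exact (s := sd F h) h1
  · intro h1
    exact Quotient.sound (s := sd F h) h1

theorem zp_sur (h : LW hJ x c) (z : ZQ F h) : ∃ a, z = zp F h a := by
  obtain ⟨a, ha⟩ := Quotient.exists_rep (s := sd F h) z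
  exact ⟨a, ha.symm⟩

/-- the order -/
def zl (F : FR J hJ Γ O) (h : LW hJ x c) (z z' : ZQ F h) : Prop :=
  ∃ a b, z = zp F h a ∧ z' = zp F h b ∧ rr F x c a b ∧ ¬ rr F x c b a

theorem zl_iff (h : LW hJ x c) (a b : M × Γ) :
    zl F h (zp F h a) (zp F h b) ↔ rr F x c a b ∧ ¬ rr F x c b a := by
  constructor
  · rintro ⟨a', b', h1, h2, h3, h4⟩
    rw [zp_eq] at h1 h2
    exact ⟨h.trans h1.1 (h.trans h3 h2.2), fun h5 => h4 (h.trans h2.2 (h.trans h5 h1.1))⟩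
  · rintro ⟨h1, h2⟩
    exact ⟨a, b, rfl, rfl, h1, h2⟩

/-- the action -/
def za (F : FR J hJ Γ O) (h : LW hJ x c) (γ : Γ) : ZQ F h → ZQ F h :=
  Quotient.map' (s₁ := sd F h) (s₂ := sd F h) (fun a => (a.1, a.2 * γ⁻¹)) (by
    rintro a b ⟨⟨t, w, h1, h2, h3⟩, t', w', h4, h5, h6⟩
    exact ⟨⟨t, w, h1, by rw [h2, mul_assoc], h3⟩, t', w', h4, by rw [h5, mul_assoc], h6⟩)

theorem za_zp (h : LW hJ x c) (γ : Γ) (a : M × Γ) :
    za F h γ (zp F h a) = zp F h (a.1, a.2 * γ⁻¹) := rfl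

/-- the unary predicates -/
def zc (F : FR J hJ Γ O) (en : J → ℕ) (h : LW hJ x c) (i : ℕ) (z : ZQ F h) : Prop :=
  ∃ m, z = zp F h (m, 1) ∧ i = en (c m)

theorem rr_one (h : LW hJ x c) (n m : M) (δ : Γ) :
    rr F x c (n, δ) (m, 1) ↔ ∃ t, Lab F (c m) t δ ∧ n = x t m := by
  constructor
  · rintro ⟨t, w, h1, h2, h3⟩
    have h4 : δ = w := by
      have : δ = w * 1 := h2
      rwa [mul_one] at this
    subst h4
    exact ⟨t, h1, h3⟩
  · rintro ⟨t, h1, h2⟩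
    exact ⟨t, δ, h1, (mul_one _).symm, h2⟩

theorem rr_one' (h : LW hJ x c) (n m : M) (δ : Γ) :
    rr F x c (m, 1) (n, δ) ↔ ∃ t, Lab F (c n) t δ⁻¹ ∧ m = x t n := by
  constructor
  · rintro ⟨t, w, h1, h2, h3⟩
    have h4 : w = δ⁻¹ := by
      have : (1 : Γ) = w * δ := h2
      exact eq_inv_of_mul_eq_one_left this.symm
    subst h4
    exact ⟨t, h1, h3⟩
  · rintro ⟨t, h1, h2⟩
    exact ⟨t, δ⁻¹, h1, (inv_mul_cancel δ).symm, h2⟩

/-- a step with the label `1` does not move the point -/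
theorem LW.stay (h : LW hJ x c) {m : M} {t : S} (h1 : Lab F (c m) t 1) : x t m = m := by
  have h2 := (lab_id h1).2
  rw [h.eq, h.one] at h2
  exact h2.symm

theorem zp_one_inj (h : LW hJ x c) {m n : M} (h1 : zp F h (m, 1) = zp F h (n, 1)) : m = n := by
  obtain ⟨h2, -⟩ := (zp_eq h _ _).1 h1
  obtain ⟨t, h3, h4⟩ := (rr_one h _ _ _).1 h2
  rw [h4]
  exact h.stay h3

/-- two labels in the two directions lead back -/
theorem LW.back (h : LW hJ x c) {m : M} {t t' : S} {w : Γ} (h1 : Lab F (c m) t w)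
    (h2 : Lab F (c (x t m)) t' w⁻¹) : x t' (x t m) = m := by
  rw [h.sh] at h2
  have h3 := lab_unit h1 h2
  rw [h.eq, h.one, h.mul] at h3
  exact h3.symm

theorem wz_zq (h : LW hJ x c) (hen : Function.Injective en) [Infinite M] :
    WZ F en (zl F h) (za F h) (zc F en h) := by
  have zcc : ∀ (γ : Γ) (m : M), za F h γ (zp F h (m, 1)) = zp F h (m, γ⁻¹) := fun γ m => by
    rw [za_zp, one_mul]
  have hcol : ∀ (d : J) z, col en (zc F en h) d z ↔ ∃ m, z = zp F h (m, 1) ∧ d = c m := by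
    intro d z
    constructor
    · rintro ⟨m, h1, h2⟩
      exact ⟨m, h1, hen h2⟩
    · rintro ⟨m, h1, rfl⟩
      exact ⟨m, h1, rfl⟩
  have hPP : ∀ z, PP (J := J) en (zc F en h) z ↔ ∃ m, z = zp F h (m, 1) := by
    intro z
    constructor
    · rintro ⟨d, hd⟩
      obtain ⟨m, h1, -⟩ := (hcol d z).1 hd
      exact ⟨m, h1⟩
    · rintro ⟨m, h1⟩
      exact ⟨c m, (hcol _ z).2 ⟨m, h1, rfl⟩⟩
  refine ⟨fun z => ?_, fun z z' z'' h1 h2 => ?_, fun z z' z'' h1 h2 => ?_, fun z => ?_,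
    fun γ δ z => ?_, fun γ z z' h1 => ?_, ?_, fun z => ?_, fun d d' z h1 h2 => ?_,
    fun i z h1 => ?_, fun γ p d d' h1 h2 => ?_, fun d p g h1 h2 => ?_,
    fun γ p q d d' h1 h2 h3 => ?_, fun d t w p h1 h2 => ?_⟩
  · obtain ⟨a, rfl⟩ := zp_sur h z
    rw [zl_iff]
    exact fun h1 => h1.2 h1.1
  · obtain ⟨a, rfl⟩ := zp_sur h z
    obtain ⟨b, rfl⟩ := zp_sur h z'
    obtain ⟨d, rfl⟩ := zp_sur h z''
    rw [zl_iff] at h1 h2 ⊢
    exact ⟨h.trans h1.1 h2.1, fun h3 => h1.2 (h.trans h2.1 h3)⟩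
  · obtain ⟨a, rfl⟩ := zp_sur h z
    obtain ⟨b, rfl⟩ := zp_sur h z'
    obtain ⟨d, rfl⟩ := zp_sur h z''
    rw [zl_iff] at h1 h2
    rw [zl_iff, zl_iff, zp_eq]
    obtain ⟨s, w, h3, h4, h5⟩ := h1.1
    obtain ⟨t, v, h6, h7, h8⟩ := h2.1
    have h9 : rr F x c a b ∨ rr F x c b a := by
      obtain ⟨q, hq | hq⟩ := h.ch s t d.1
      · right
        refine ⟨q, v * w⁻¹, ?_, ?_, ?_⟩
        · rw [h5]
          exact h.div h3 h6 hq
        · rw [h4, h7, mul_assoc, inv_mul_cancel_left]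
        · rw [h8, h5, hq]
      · left
        refine ⟨q, w * v⁻¹, ?_, ?_, ?_⟩
        · rw [h8]
          exact h.div h6 h3 hq
        · rw [h4, h7, mul_assoc, inv_mul_cancel_left]
        · rw [h8, h5, hq]
    by_cases h10 : rr F x c a b
    · by_cases h11 : rr F x c b a
      · exact Or.inl ⟨h10, h11⟩
      · exact Or.inr (Or.inl ⟨h10, h11⟩)
    · have h11 := h9.resolve_left h10
      exact Or.inr (Or.inr ⟨h11, h10⟩)
  · obtain ⟨a, rfl⟩ := zp_sur h z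
    rw [za_zp, inv_one, mul_one]
  · obtain ⟨a, rfl⟩ := zp_sur h z
    rw [za_zp, za_zp, za_zp, mul_inv_rev, mul_assoc]
  · obtain ⟨a, rfl⟩ := zp_sur h z
    obtain ⟨b, rfl⟩ := zp_sur h z'
    rw [za_zp, za_zp, zl_iff]
    rw [zl_iff] at h1
    obtain ⟨⟨t, w, h2, h3, h4⟩, h5⟩ := h1
    refine ⟨⟨t, w, h2, by rw [h3, mul_assoc], h4⟩, fun h6 => h5 ?_⟩
    obtain ⟨t', w', h7, h8, h9⟩ := h6
    refine ⟨t', w', h7, ?_, h9⟩
    have h10 : b.2 * γ⁻¹ = w' * (a.2 * γ⁻¹) := h8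
    rw [← mul_assoc] at h10
    exact mul_right_cancel h10
  · exact Infinite.of_injective (fun m : M =>
      (⟨zp F h (m, 1), (hPP _).2 ⟨m, rfl⟩⟩ : {u // PP (J := J) en (zc F en h) u}))
        fun m n hmn => zp_one_inj h (congrArg Subtype.val hmn)
  · obtain ⟨a, rfl⟩ := zp_sur h z
    refine ⟨a.2⁻¹, zp F h (a.1, 1), (hPP _).2 ⟨_, rfl⟩, ?_⟩
    rw [zcc, inv_inv]
  · obtain ⟨m, h3, rfl⟩ := (hcol _ _).1 h1
    obtain ⟨n, h4, rfl⟩ := (hcol _ _).1 h2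
    rw [zp_one_inj h (h3.symm.trans h4)]
  · obtain ⟨m, -, h2⟩ := h1
    exact ⟨c m, h2.symm⟩
  · obtain ⟨m, rfl, rfl⟩ := (hcol _ _).1 h1
    obtain ⟨n, h3, rfl⟩ := (hcol _ _).1 h2
    rw [zcc, zp_eq, rr_one h, rr_one' h, inv_inv] at h3
    obtain ⟨-, t, h4, rfl⟩ := h3
    exact ⟨t, h.sh m t, h4⟩
  · obtain ⟨m, rfl, rfl⟩ := (hcol _ _).1 h2
    rw [zcc, zp_eq, rr_one h, rr_one' h, inv_inv]
    refine ⟨⟨1, ?_, (h.one m).symm⟩, 1, h1, (h.one m).symm⟩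
    have h3 := lab_div h1 (lab_one (F := F) (c m)) (q := 1) (by rw [mul_one]; exact hJ.refl _ (c m).2 _)
    rw [sJ_one, one_mul] at h3
    exact h3
  · obtain ⟨m, rfl, rfl⟩ := (hcol _ _).1 h1
    obtain ⟨n, rfl, rfl⟩ := (hcol _ _).1 h2
    rw [zcc, zl_iff, rr_one h, rr_one' h, inv_inv] at h3
    obtain ⟨⟨t, h4, rfl⟩, h5⟩ := h3
    refine ⟨⟨t, h.sh m t, h4⟩, ?_⟩
    rintro ⟨t', h6, h7⟩
    apply h5
    refine ⟨t', h7, ?_⟩
    have h8 := h.back (w := γ⁻¹) (t' := t') h4 (by rw [inv_inv]; exact h7)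
    exact h8.symm
  · obtain ⟨m, rfl, rfl⟩ := (hcol _ _).1 h2
    refine ⟨zp F h (x t m, 1), (hcol _ _).2 ⟨_, rfl, (h.sh m t).symm⟩, ?_⟩
    unfold Rl
    rw [zcc, zl_iff, zp_eq, rr_one h, rr_one' h, inv_inv]
    have h3 : ∃ t', Lab F (c m) t' w ∧ x t m = x t' m := ⟨t, h1, rfl⟩
    by_cases h4 : ∃ t', Lab F (c (x t m)) t' w⁻¹ ∧ m = x t' (x t m)
    · exact Or.inr ⟨h3, h4⟩
    · exact Or.inl ⟨h3, h4⟩

/-- the graph of the action -/
theorem gr_zq (h : LW hJ x c) (hen : Function.Injective en) [Infinite M] (t : S) (m n : M) :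
    Gr F en (zl F h) (za F h) (zc F en h) t (zp F h (m, 1)) (zp F h (n, 1)) ↔ x t m = n := by
  have key : ∀ m, Gr F en (zl F h) (za F h) (zc F en h) t (zp F h (m, 1))
      (zp F h (x t m, 1)) := by
    intro m
    refine ⟨c m, ⟨m, rfl, rfl⟩, ⟨x t m, rfl, by rw [h.sh]⟩, ?_⟩
    unfold Rl
    rw [za_zp, one_mul, inv_inv, zl_iff, zp_eq, rr_one h, rr_one' h]
    have h3 : ∃ t', Lab F (c m) t' (F.gn (c m) t) ∧ x t m = x t' m := ⟨t, lab_gn _ _, rfl⟩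
    by_cases h4 : ∃ t', Lab F (c (x t m)) t' (F.gn (c m) t)⁻¹ ∧ m = x t' (x t m)
    · exact Or.inr ⟨h3, h4⟩
    · exact Or.inl ⟨h3, h4⟩
  constructor
  · intro h1
    exact zp_one_inj h ((wz_zq en h hen).gr_un (key m) h1)
  · rintro rfl
    exact key m

end pos

end Pool.Agent.N649.KA
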